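import Pool.Agent.N208.BT.Stm5

/-!
# Project BT (helper208), part BG/P2 (helper507): the linear or antilinear intertwining operator

The algebra of the operators `Rs sg a b` is copied from `Pool/Agent/N73/BTbase.lean` and
`Pool/Agent/N73/BTA.lean` (helper73), the linear case from `Pool/Agent/N227/BTP2.lean` (helper227), with
the form of signature `(1, n)` replaced by an arbitrary signature.
-/

set_option autoImplicit false

noncomputable section

namespace Pool.Agent.N507.BGP2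

open Matrix
open Pool.Agent.N208.BT

variable {n n' : ℕ} {sg : Fin n → ℝ} {sg' : Fin n' → ℝ}

lemma hs_add_left (x y z : VN n) : hs sg (x + y) z = hs sg x z + hs sg y z := by
  unfold hs
  simp only [Pi.add_apply, mul_add, add_mul, Finset.sum_add_distrib]

lemma hs_smul_left (c : ℂ) (x y : VN n) : hs sg (c • x) y = c * hs sg x y := by
  unfold hs
  rw [Finset.mul_sum]
  refine Finset.sum_congr rfl fun i _ => ?_
  rw [Pi.smul_apply, smul_eq_mul]
  ring

lemma hs_conj (x y : VN n) : hs sg y x = star (hs sg x y) := by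
  unfold hs
  rw [star_sum]
  refine Finset.sum_congr rfl fun i _ => ?_
  rw [star_mul', star_mul', star_star, Complex.star_def, Complex.conj_ofReal]
  ring

lemma hs_add_right (x y z : VN n) : hs sg x (y + z) = hs sg x y + hs sg x z := by
  rw [hs_conj, hs_add_left, star_add, ← hs_conj, ← hs_conj]

lemma hs_smul_right (c : ℂ) (x y : VN n) : hs sg x (c • y) = star c * hs sg x y := by
  rw [hs_conj, hs_smul_left, star_mul', ← hs_conj]

lemma hs_zero_left (y : VN n) : hs sg 0 y = 0 := by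
  have := hs_smul_left (sg := sg) 0 (0 : VN n) y
  simpa using this

lemma hs_sub_left (x y z : VN n) : hs sg (x - y) z = hs sg x z - hs sg y z := by
  have h : x - y = x + (-1 : ℂ) • y := by rw [neg_one_smul, sub_eq_add_neg]
  rw [h, hs_add_left, hs_smul_left]
  ring

lemma hs_sub_right (x y z : VN n) : hs sg x (y - z) = hs sg x y - hs sg x z := by
  have h : y - z = y + (-1 : ℂ) • z := by rw [neg_one_smul, sub_eq_add_neg]
  rw [h, hs_add_right, hs_smul_right]
  simp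
  ring

/-- `hf` as a linear form -/
def hsL (sg : Fin n → ℝ) (b : VN n) : VN n →ₗ[ℂ] ℂ where
  toFun x := hs sg x b
  map_add' x y := hs_add_left x y b
  map_smul' c x := hs_smul_left c x b

lemma Rs_apply (a b x : VN n) : Rs sg a b *ᵥ x = hs sg x b • a := by
  have h := LinearMap.pi_apply_eq_sum_univ (hsL sg b) x
  funext i
  have h2 : (Rs sg a b *ᵥ x) i = ∑ j, Rs sg a b i j * x j := rfl
  have h3 : hs sg x b = ∑ j, x j * hs sg (Pi.single j 1) b := by
    have h4 : hsL sg b x = hs sg x b := rfl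
    rw [← h4, h]
    refine Finset.sum_congr rfl fun j _ => ?_
    rw [smul_eq_mul]
    congr 1
    have e : (fun k => if j = k then (1 : ℂ) else 0) = (Pi.single j 1 : VN n) := by
      funext k
      rw [Pi.single_apply]
      by_cases hjk : j = k
      · rw [if_pos hjk, if_pos hjk.symm]
      · rw [if_neg hjk, if_neg (fun h => hjk h.symm)]
    rw [e]
    rfl
  rw [h2, Pi.smul_apply, smul_eq_mul, h3, Finset.sum_mul]
  refine Finset.sum_congr rfl fun j _ => ?_
  unfold Rs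
  rw [Matrix.of_apply]
  ring

lemma mat_ext {A B : MN n} (h : ∀ x, A *ᵥ x = B *ᵥ x) : A = B := by
  apply Matrix.toLin'.injective
  ext1 x
  apply LinearMap.ext
  intro y
  simp only [LinearMap.comp_apply, Matrix.toLin'_apply]
  exact h _

lemma Rs_add_left (a b c : VN n) : Rs sg (a + b) c = Rs sg a c + Rs sg b c := by
  apply mat_ext
  intro x
  rw [Matrix.add_mulVec, Rs_apply, Rs_apply, Rs_apply, smul_add]

lemma Rs_smul_left (c : ℂ) (a b : VN n) : Rs sg (c • a) b = c • Rs sg a b := by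
  apply mat_ext
  intro x
  rw [Matrix.smul_mulVec, Rs_apply, Rs_apply, smul_comm]

lemma Rs_add_right (a b c : VN n) : Rs sg a (b + c) = Rs sg a b + Rs sg a c := by
  apply mat_ext
  intro x
  rw [Matrix.add_mulVec, Rs_apply, Rs_apply, Rs_apply, hs_add_right, add_smul]

lemma Rs_smul_right (c : ℂ) (a b : VN n) : Rs sg a (c • b) = star c • Rs sg a b := by
  apply mat_ext
  intro x
  rw [Matrix.smul_mulVec, Rs_apply, Rs_apply, hs_smul_right, mul_smul]

lemma Rs_zero_left (b : VN n) : Rs sg 0 b = 0 := by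
  have := Rs_smul_left (sg := sg) 0 (0 : VN n) b
  simpa using this

lemma Rs_zero_right (a : VN n) : Rs sg a 0 = 0 := by
  have := Rs_smul_right (sg := sg) 0 a (0 : VN n)
  simpa using this

/-- the commutator -/
def br (X Y : MN n) : MN n := X * Y - Y * X

lemma br_add (X Y Z : MN n) : br X (Y + Z) = br X Y + br X Z := by
  unfold br
  noncomm_ring

lemma br_sub (X Y Z : MN n) : br X (Y - Z) = br X Y - br X Z := by
  unfold br
  noncomm_ring

lemma br_smul (c : ℂ) (X Y : MN n) : br X (c • Y) = c • br X Y := by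
  unfold br
  rw [mul_smul_comm, smul_mul_assoc, smul_sub]

lemma br_R {X : MN n} (hX : IsSks sg X) (a b : VN n) : br X (Rs sg a b) = Rs sg (X *ᵥ a) b + Rs sg a (X *ᵥ b) := by
  apply mat_ext
  intro x
  unfold br
  rw [Matrix.sub_mulVec, Matrix.add_mulVec, ← Matrix.mulVec_mulVec, ← Matrix.mulVec_mulVec,
    Rs_apply, Rs_apply, Rs_apply, Rs_apply, Matrix.mulVec_smul]
  have h := hX x b
  have h2 : hs sg (X *ᵥ x) b = - hs sg x (X *ᵥ b) := by linear_combination h
  rw [h2, neg_smul, sub_neg_eq_add]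

lemma Ns_apply (u w x : VN n) : Ns sg u w *ᵥ x = hs sg x u • w - hs sg x w • u := by
  unfold Ns
  rw [Matrix.sub_mulVec, Rs_apply, Rs_apply]

lemma Ns_skew (u w : VN n) : IsSks sg (Ns sg u w) := by
  intro x y
  rw [Ns_apply, Ns_apply, hs_sub_left, hs_sub_right, hs_smul_left, hs_smul_left, hs_smul_right,
    hs_smul_right, ← hs_conj, ← hs_conj]
  ring

lemma hs_self (x : VN n) : star (hs sg x x) = hs sg x x := (hs_conj x x).symm

/-- hyperbolic pairs -/
structure Hy (sg : Fin n → ℝ) (u v : VN n) : Prop where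
  uu : hs sg u u = 0
  vv : hs sg v v = 0
  uv : hs sg u v = 1

lemma Hy.vu {u v : VN n} (h : Hy sg u v) : hs sg v u = 1 := by rw [hs_conj, h.uv, star_one]

lemma Hy.symm {u v : VN n} (h : Hy sg u v) : Hy sg v u := ⟨h.vv, h.uu, h.vu⟩

/-- orthogonal to both -/
structure Or (sg : Fin n → ℝ) (u v w : VN n) : Prop where
  wu : hs sg w u = 0
  wv : hs sg w v = 0

lemma Or.uw {u v w : VN n} (h : Or sg u v w) : hs sg u w = 0 := by rw [hs_conj, h.wu, star_zero]

lemma Or.vw {u v w : VN n} (h : Or sg u v w) : hs sg v w = 0 := by rw [hs_conj, h.wv, star_zero]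

lemma Or.symm {u v w : VN n} (h : Or sg u v w) : Or sg v u w := ⟨h.wv, h.wu⟩

lemma Or.smul {u v w : VN n} (h : Or sg u v w) (c : ℂ) : Or sg u v (c • w) :=
  ⟨by rw [hs_smul_left, h.wu, mul_zero], by rw [hs_smul_left, h.wv, mul_zero]⟩

section

variable {u v w : VN n} (hy : Hy sg u v) (ho : Or sg u v w)

include hy ho

lemma Ns_u : Ns sg u w *ᵥ u = 0 := by rw [Ns_apply, hy.uu, ho.uw, zero_smul, zero_smul, sub_zero]

lemma Ns_v : Ns sg u w *ᵥ v = w := by rw [Ns_apply, hy.vu, ho.vw, one_smul, zero_smul, sub_zero]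

omit hy ho in
lemma Ns_w {w' : VN n} (ho' : Or sg u v w') : Ns sg u w *ᵥ w' = -(hs sg w' w) • u := by
  rw [Ns_apply, ho'.wu, zero_smul, zero_sub, neg_smul]

lemma A1 : br (Ns sg u w) (Complex.I • Rs sg v v) = Complex.I • (Rs sg w v + Rs sg v w) := by
  rw [br_smul, br_R (Ns_skew u w), Ns_v hy ho]

lemma A2 : br (Ns sg u w) (Complex.I • (Rs sg w v + Rs sg v w)) =
    Complex.I • ((2 : ℂ) • Rs sg w w - hs sg w w • (Rs sg u v + Rs sg v u)) := by
  rw [br_smul, br_add, br_R (Ns_skew u w), br_R (Ns_skew u w), Ns_v hy ho, Ns_w ho, Rs_smul_left,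
    Rs_smul_right, star_neg, hs_self]
  congr 1
  module

lemma A3 : br (Ns sg u w) (Complex.I • ((2 : ℂ) • Rs sg w w - hs sg w w • (Rs sg u v + Rs sg v u))) =
    Complex.I • ((-3 * hs sg w w) • (Rs sg u w + Rs sg w u)) := by
  rw [br_smul, br_sub, br_smul, br_smul, br_add, br_R (Ns_skew u w), br_R (Ns_skew u w),
    br_R (Ns_skew u w), Ns_v hy ho, Ns_u hy ho, Ns_w ho, Rs_smul_left, Rs_smul_right, star_neg,
    hs_self, Rs_zero_left, Rs_zero_right]
  congr 1
  module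

lemma A4 : br (Ns sg u w) (Complex.I • ((-3 * hs sg w w) • (Rs sg u w + Rs sg w u))) =
    Complex.I • ((6 * hs sg w w ^ 2) • Rs sg u u) := by
  rw [br_smul, br_smul, br_add, br_R (Ns_skew u w), br_R (Ns_skew u w),
    Ns_u hy ho, Ns_w ho, Rs_smul_left, Rs_smul_right, star_neg,
    hs_self, Rs_zero_left, Rs_zero_right]
  congr 1
  module

end

lemma br_N {X : MN n} (hX : IsSks sg X) (a b : VN n) : br X (Ns sg a b) = Ns sg (X *ᵥ a) b + Ns sg a (X *ᵥ b) := by
  unfold Ns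
  rw [br_sub, br_R hX, br_R hX]
  abel

lemma Ns_add (u a b : VN n) : Ns sg u (a + b) = Ns sg u a + Ns sg u b := by
  unfold Ns
  rw [Rs_add_left, Rs_add_right]
  abel

lemma Ns_real (u a : VN n) {c : ℂ} (hc : star c = c) : Ns sg u (c • a) = c • Ns sg u a := by
  unfold Ns
  rw [Rs_smul_left, Rs_smul_right, hc, smul_sub]

lemma Ns_smul_left (u a : VN n) (c : ℂ) : Ns sg (c • u) a = Ns sg u (star c • a) := by
  unfold Ns
  rw [Rs_smul_left, Rs_smul_right, Rs_smul_left, Rs_smul_right, star_star]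

lemma Ns_zero (u : VN n) : Ns sg u 0 = 0 := by
  unfold Ns
  rw [Rs_zero_left, Rs_zero_right, sub_zero]

lemma Ns_neg (u w : VN n) : Ns sg u (-w) = -Ns sg u w := by
  have h := Ns_add (sg := sg) u w (-w)
  rw [add_neg_cancel, Ns_zero] at h
  exact eq_neg_of_add_eq_zero_right h.symm

lemma Ns_I (v w : VN n) : Ns sg v (Complex.I • w) = Complex.I • (Rs sg w v + Rs sg v w) := by
  unfold Ns
  rw [Rs_smul_left, Rs_smul_right, Complex.star_def, Complex.conj_I, neg_smul, sub_neg_eq_add,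
    smul_add]

/-- the projection to the orthogonal complement -/
def pr (sg : Fin n → ℝ) (u v x : VN n) : VN n := x - hs sg x v • u - hs sg x u • v

lemma pr_symm (u v x : VN n) : pr sg u v x = pr sg v u x := by
  unfold pr
  rw [sub_right_comm]

lemma pr_add (u v x y : VN n) : pr sg u v (x + y) = pr sg u v x + pr sg u v y := by
  unfold pr
  rw [hs_add_left, hs_add_left, add_smul, add_smul]
  abel

lemma pr_smul (u v x : VN n) (c : ℂ) : pr sg u v (c • x) = c • pr sg u v x := by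
  unfold pr
  rw [hs_smul_left, hs_smul_left, smul_sub, smul_sub, mul_smul, mul_smul]

lemma pr_eq (sg : Fin n → ℝ) (u v x : VN n) : x = hs sg x v • u + hs sg x u • v + pr sg u v x := by
  unfold pr
  abel

lemma pr_or {u v : VN n} (hy : Hy sg u v) (x : VN n) : Or sg u v (pr sg u v x) := by
  unfold pr
  refine ⟨?_, ?_⟩
  · rw [hs_sub_left, hs_sub_left, hs_smul_left, hs_smul_left, hy.uu, hy.vu]
    ring
  · rw [hs_sub_left, hs_sub_left, hs_smul_left, hs_smul_left, hy.vv, hy.uv]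
    ring

lemma pr_of_or {u v w : VN n} (ho : Or sg u v w) : pr sg u v w = w := by
  unfold pr
  rw [ho.wu, ho.wv, zero_smul, zero_smul, sub_zero, sub_zero]

lemma pr_u {u v : VN n} (hy : Hy sg u v) : pr sg u v u = 0 := by
  unfold pr
  rw [hy.uu, hy.uv, zero_smul, one_smul, sub_self, sub_zero]

/-- the grading element -/
def Hs (sg : Fin n → ℝ) (u v : VN n) : MN n := Rs sg u v - Rs sg v u

lemma Hs_u {u v : VN n} (hy : Hy sg u v) : Hs sg u v *ᵥ u = u := by
  unfold Hs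
  rw [Matrix.sub_mulVec, Rs_apply, Rs_apply, hy.uv, hy.uu, one_smul, zero_smul, sub_zero]

lemma Hs_v {u v : VN n} (hy : Hy sg u v) : Hs sg u v *ᵥ v = -v := by
  unfold Hs
  rw [Matrix.sub_mulVec, Rs_apply, Rs_apply, hy.vv, hy.vu, one_smul, zero_smul, zero_sub]

lemma Hs_w {u v w : VN n} (ho : Or sg u v w) : Hs sg u v *ᵥ w = 0 := by
  unfold Hs
  rw [Matrix.sub_mulVec, Rs_apply, Rs_apply, ho.wu, ho.wv, zero_smul, zero_smul, zero_sub, neg_zero]

lemma Hs_eq (u v : VN n) : Hs sg u v = Ns sg v u := rfl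

lemma Hs_skew (u v : VN n) : IsSks sg (Hs sg u v) := Ns_skew v u

lemma Hs_apply (u v x : VN n) : Hs sg u v *ᵥ x = hs sg x v • u - hs sg x u • v := by
  rw [Hs_eq, Ns_apply]

/-- operators of weight one -/
lemma K1 {u v : VN n} {Y : MN n} (hy : Hy sg u v) (hsk : IsSks sg Y) (hb : br (Hs sg u v) Y = Y) :
    Y = Ns sg u (Y *ᵥ v) ∧ Or sg u v (Y *ᵥ v) := by
  have act : ∀ x, hs sg (Y *ᵥ x) v • u - hs sg (Y *ᵥ x) u • v = Y *ᵥ x + Y *ᵥ (Hs sg u v *ᵥ x) := by
    intro x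
    have h1 : br (Hs sg u v) Y *ᵥ x = Y *ᵥ x := by rw [hb]
    unfold br at h1
    rw [Matrix.sub_mulVec, ← Matrix.mulVec_mulVec, ← Matrix.mulVec_mulVec, Hs_apply u v (Y *ᵥ x)]
      at h1
    exact sub_eq_iff_eq_add.1 h1
  have h1 := act v
  rw [Hs_v hy, Matrix.mulVec_neg, add_neg_cancel] at h1
  have e1 : hs sg (Y *ᵥ v) v = 0 := by
    have h2 : hs sg (hs sg (Y *ᵥ v) v • u - hs sg (Y *ᵥ v) u • v) v = 0 := by rw [h1, hs_zero_left]
    rw [hs_sub_left, hs_smul_left, hs_smul_left, hy.uv, hy.vv] at h2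
    linear_combination h2
  have e2 : hs sg (Y *ᵥ v) u = 0 := by
    have h2 : hs sg (hs sg (Y *ᵥ v) v • u - hs sg (Y *ᵥ v) u • v) u = 0 := by rw [h1, hs_zero_left]
    rw [hs_sub_left, hs_smul_left, hs_smul_left, hy.uu, hy.vu] at h2
    linear_combination -h2
  have h3 := act u
  rw [Hs_u hy] at h3
  have e3 : Y *ᵥ u = 0 := by
    have g1 : hs sg (Y *ᵥ u) v = 0 := by
      have h2 : hs sg (hs sg (Y *ᵥ u) v • u - hs sg (Y *ᵥ u) u • v) v = hs sg (Y *ᵥ u + Y *ᵥ u) v := by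
        rw [h3]
      rw [hs_sub_left, hs_smul_left, hs_smul_left, hy.uv, hy.vv, hs_add_left] at h2
      linear_combination -h2
    have g2 : hs sg (Y *ᵥ u) u = 0 := by
      have h2 : hs sg (hs sg (Y *ᵥ u) v • u - hs sg (Y *ᵥ u) u • v) u = hs sg (Y *ᵥ u + Y *ᵥ u) u := by
        rw [h3]
      rw [hs_sub_left, hs_smul_left, hs_smul_left, hy.uu, hy.vu, hs_add_left] at h2
      linear_combination (-1 / 3 : ℂ) * h2
    rw [g1, g2, zero_smul, zero_smul, sub_zero] at h3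
    have h4 : (2 : ℂ) • (Y *ᵥ u) = 0 := by rw [two_smul, ← h3]
    exact (smul_eq_zero.1 h4).resolve_left two_ne_zero
  have e4 : ∀ x, Or sg u v x → Y *ᵥ x = (-(hs sg x (Y *ᵥ v))) • u := by
    intro x ho
    have h4 := act x
    rw [Hs_w ho, Matrix.mulVec_zero, add_zero] at h4
    have g2 : hs sg (Y *ᵥ x) u = 0 := by
      have h2 : hs sg (hs sg (Y *ᵥ x) v • u - hs sg (Y *ᵥ x) u • v) u = hs sg (Y *ᵥ x) u := by
        rw [h4]
      rw [hs_sub_left, hs_smul_left, hs_smul_left, hy.uu, hy.vu] at h2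
      linear_combination (-1 / 2 : ℂ) * h2
    rw [g2, zero_smul, sub_zero] at h4
    rw [← h4]
    have h5 := hsk x v
    have h6 : hs sg (Y *ᵥ x) v = -(hs sg x (Y *ᵥ v)) := by linear_combination h5
    rw [h6]
  refine ⟨?_, e2, e1⟩
  apply mat_ext
  intro x
  rw [Ns_apply]
  have ho := pr_or hy x
  conv_lhs => rw [pr_eq sg u v x]
  rw [Matrix.mulVec_add, Matrix.mulVec_add, Matrix.mulVec_smul, Matrix.mulVec_smul, e3, smul_zero,
    zero_add, e4 _ ho]
  have h7 : hs sg x (Y *ᵥ v) = hs sg (pr sg u v x) (Y *ᵥ v) := by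
    have e5 : hs sg u (Y *ᵥ v) = 0 := by rw [hs_conj, e2, star_zero]
    have e6 : hs sg v (Y *ᵥ v) = 0 := by rw [hs_conj, e1, star_zero]
    conv_lhs => rw [pr_eq sg u v x]
    rw [hs_add_left, hs_add_left, hs_smul_left, hs_smul_left, e5, e6]
    ring
  rw [h7, neg_smul]
  abel

lemma Ns_inj {u v a b : VN n} (hy : Hy sg u v) (ha : Or sg u v a)
    (hb : Or sg u v b) (h : Ns sg u a = Ns sg u b) : a = b := by
  have h1 : Ns sg u a *ᵥ v = Ns sg u b *ᵥ v := by rw [h]
  rwa [Ns_v hy ha, Ns_v hy hb] at h1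

lemma trace_R (a b : VN n) : (Rs sg a b).trace = hs sg a b := by
  have h := LinearMap.pi_apply_eq_sum_univ (hsL sg b) a
  have h4 : hsL sg b a = hs sg a b := rfl
  rw [← h4, h, Matrix.trace]
  refine Finset.sum_congr rfl fun j _ => ?_
  rw [Matrix.diag_apply, smul_eq_mul, Rs, Matrix.of_apply]
  congr 1
  have e : (fun k => if j = k then (1 : ℂ) else 0) = (Pi.single j 1 : VN n) := by
    funext k
    rw [Pi.single_apply]
    by_cases hjk : j = k
    · rw [if_pos hjk, if_pos hjk.symm]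
    · rw [if_neg hjk, if_neg (fun h => hjk h.symm)]
  rw [e]
  rfl

/-- the bracket of step2 -/
lemma L2 {u v w : VN n} (hy : Hy sg u v) (ho : Or sg u v w)
    (hsY : IsSks sg (br (Ns sg u w) (Ns sg v (Complex.I • w)))) :
    br (br (Ns sg u w) (Ns sg v (Complex.I • w))) (Ns sg u w) = (3 * hs sg w w) • Ns sg u (Complex.I • w) := by
  have ho' : Or sg u v (Complex.I • w) := ho.smul _
  rw [br_N hsY]
  have e0 : br (Ns sg u w) (Ns sg v (Complex.I • w)) = Ns sg w (Complex.I • w) +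
      Ns sg v (-(Complex.I * hs sg w w) • u) := by
    rw [br_N (Ns_skew u w), Ns_v hy ho, Ns_w ho', hs_smul_left]
  have eu : br (Ns sg u w) (Ns sg v (Complex.I • w)) *ᵥ u = (-(Complex.I * hs sg w w)) • u := by
    rw [e0, Matrix.add_mulVec, Ns_apply, Ns_apply, hs_smul_right, hs_smul_right, ho.uw, hy.uv,
      hy.uu]
    simp
  have ew : br (Ns sg u w) (Ns sg v (Complex.I • w)) *ᵥ w = (2 * Complex.I * hs sg w w) • w := by
    rw [e0, Matrix.add_mulVec, Ns_apply, Ns_apply, hs_smul_right, hs_smul_right, ho.wu, ho.wv,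
      Complex.star_def, Complex.conj_I]
    module
  rw [eu, ew, Ns_smul_left, ← Ns_add]
  have e3 : star (-(Complex.I * hs sg w w)) • w + (2 * Complex.I * hs sg w w) • w =
      (3 * hs sg w w) • (Complex.I • w) := by
    rw [star_neg, star_mul', hs_self, Complex.star_def, Complex.conj_I]
    module
  have hr : star (3 * hs sg w w) = 3 * hs sg w w := by
    rw [star_mul', hs_self]
    simp
  rw [e3, Ns_real _ _ hr]

/-- the decomposition of a long root -/
lemma L9 {u v w : VN n} (a b : ℂ) (hh : hs sg w w = -(a * star b + b * star a)) :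
    Complex.I • Rs sg (a • u + b • v + w) (a • u + b • v + w) = (a * star a) • (Complex.I • Rs sg u u)
      + (b * star b) • (Complex.I • Rs sg v v) + Ns sg u ((Complex.I * star a) • w)
      + Ns sg v ((Complex.I * star b) • w) + (Complex.I * (a * star b - b * star a) / 2) • Hs sg u v
      + (1 / 2 : ℝ) • (Complex.I • ((2 : ℂ) • Rs sg w w - hs sg w w • (Rs sg u v + Rs sg v u))) := by
  have hI : Complex.I * Complex.I = -1 := Complex.I_mul_I
  have sI : star Complex.I = -Complex.I := Complex.conj_I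
  rw [hh]
  unfold Ns Hs
  simp only [Rs_add_left, Rs_add_right, Rs_smul_left, Rs_smul_right, star_mul', star_star, sI]
  module

/-- the data -/
structure D (sg : Fin n → ℝ) (sg' : Fin n' → ℝ) (𝔟 : Submodule ℝ (MN n × MN n')) (u v : VN n)
    (u' v' : VN n') : Prop where
  P : PRs sg sg' 𝔟
  sgn : IsSg sg
  su : ∀ X : MN n, IsSks sg X → X.trace = 0 →
    X ∈ Submodule.span ℝ {Y : MN n | ∃ x : VN n, hs sg x x = 0 ∧ Y = Complex.I • Rs sg x x}
  i2 : ∀ Y : MN n', (0, Y) ∈ 𝔟 → Y = 0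
  hy : Hy sg u v
  hy' : Hy sg' u' v'
  me : (Complex.I • Rs sg u u, Complex.I • Rs sg' u' u') ∈ 𝔟
  mf : (Complex.I • Rs sg v v, Complex.I • Rs sg' v' v') ∈ 𝔟

variable {𝔟 : Submodule ℝ (MN n × MN n')} {u v : VN n} {u' v' : VN n'}

lemma D.brm (d : D sg sg' 𝔟 u v u' v') {X X2 : MN n} {Y Y2 : MN n'} (h : (X, Y) ∈ 𝔟)
    (h2 : (X2, Y2) ∈ 𝔟) : (br X X2, br Y Y2) ∈ 𝔟 := d.P.br _ h _ h2

lemma D.uniq (d : D sg sg' 𝔟 u v u' v') {X : MN n} {Y Y2 : MN n'} (h : (X, Y) ∈ 𝔟)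
    (h2 : (X, Y2) ∈ 𝔟) : Y = Y2 := by
  have h3 : ((X, Y) - (X, Y2) : MN n × MN n') ∈ 𝔟 := 𝔟.sub_mem h h2
  have e : ((X, Y) - (X, Y2) : MN n × MN n') = (0, Y - Y2) := by
    rw [Prod.mk_sub_mk, sub_self]
  rw [e] at h3
  exact sub_eq_zero.1 (d.i2 _ h3)

lemma rsm {X : MN n} {Y : MN n'} (h : (X, Y) ∈ 𝔟) {c : ℂ} (hc : star c = c) :
    (c • X, c • Y) ∈ 𝔟 := by
  have h1 : ((c.re : ℝ) : ℂ) = c := Complex.conj_eq_iff_re.1 hc
  rw [← h1, Complex.coe_smul, Complex.coe_smul]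
  exact 𝔟.smul_mem _ h

lemma add_m {X X2 : MN n} {Y Y2 : MN n'} (h : (X, Y) ∈ 𝔟) (h2 : (X2, Y2) ∈ 𝔟) :
    (X + X2, Y + Y2) ∈ 𝔟 := 𝔟.add_mem h h2

lemma brH {a b : VN n} (hy : Hy sg a b) (hsk : IsSks sg (Complex.I • Rs sg a a)) :
    br (Complex.I • Rs sg a a) (Complex.I • Rs sg b b) = -Hs sg a b := by
  rw [br_smul, br_R hsk, Matrix.smul_mulVec, Rs_apply, hy.vu, one_smul, Rs_smul_left,
    Rs_smul_right, Complex.star_def, Complex.conj_I]
  unfold Hs
  rw [smul_add, smul_smul, smul_smul, mul_neg, Complex.I_mul_I, neg_neg, one_smul, neg_one_smul]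
  abel

lemma D.sk1 (d : D sg sg' 𝔟 u v u' v') {X : MN n} {Y : MN n'} (h : (X, Y) ∈ 𝔟) : IsSks sg X := by
  have h2 := d.P.sk1 (X, Y) h
  exact h2

lemma D.sk2 (d : D sg sg' 𝔟 u v u' v') {X : MN n} {Y : MN n'} (h : (X, Y) ∈ 𝔟) : IsSks sg' Y := by
  have h2 := d.P.sk2 (X, Y) h
  exact h2

lemma D.Hm (d : D sg sg' 𝔟 u v u' v') : (Hs sg u v, Hs sg' u' v') ∈ 𝔟 := by
  have h := d.brm d.me d.mf
  rw [brH d.hy (d.sk1 d.me), brH d.hy' (d.sk2 d.me)] at h
  have h2 : (-(1 : ℝ)) • ((-Hs sg u v, -Hs sg' u' v') : MN n × MN n') ∈ 𝔟 := 𝔟.smul_mem _ h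
  have e : (-(1 : ℝ)) • ((-Hs sg u v, -Hs sg' u' v') : MN n × MN n') = (Hs sg u v, Hs sg' u' v') := by
    rw [Prod.smul_mk, smul_neg, smul_neg, neg_smul, neg_smul, one_smul, one_smul, neg_neg, neg_neg]
  rwa [e] at h2

/-- corresponding vectors -/
structure Th (sg : Fin n → ℝ) (sg' : Fin n' → ℝ) (𝔟 : Submodule ℝ (MN n × MN n')) (u v : VN n)
    (u' v' : VN n') (w : VN n) (w' : VN n') : Prop where
  o : Or sg u v w
  o' : Or sg' u' v' w'
  m : (Ns sg u w, Ns sg' u' w') ∈ 𝔟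

lemma D.ex (d : D sg sg' 𝔟 u v u' v') {X : MN n} (hsk : IsSks sg X) (ht : X.trace = 0) :
    ∃ Y, (X, Y) ∈ 𝔟 := by
  have h := d.su X hsk ht
  have h2 : Submodule.span ℝ {Y : MN n | ∃ x : VN n, hs sg x x = 0 ∧ Y = Complex.I • Rs sg x x} ≤
      𝔟.map (LinearMap.fst ℝ (MN n) (MN n')) := by
    rw [Submodule.span_le]
    rintro Y ⟨x, hx, rfl⟩
    obtain ⟨Z, hZ⟩ := d.P.all1 x hx
    exact ⟨_, hZ, rfl⟩
  obtain ⟨⟨a, b⟩, hp, e⟩ := h2 h
  refine ⟨b, ?_⟩
  have e2 : a = X := e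
  rw [← e2]
  exact hp

lemma D.th (d : D sg sg' 𝔟 u v u' v') {w : VN n} (ho : Or sg u v w) :
    ∃ w', Th sg sg' 𝔟 u v u' v' w w' := by
  obtain ⟨Y, hY⟩ := d.ex (X := Ns sg u w) (Ns_skew u w) (by
    unfold Ns
    rw [Matrix.trace_sub, trace_R, trace_R, ho.wu, ho.uw, sub_zero])
  have h1 := d.brm d.Hm hY
  have e1 : br (Hs sg u v) (Ns sg u w) = Ns sg u w := by
    rw [br_N (Hs_skew u v), Hs_u d.hy, Hs_w ho, Ns_zero, add_zero]
  rw [e1] at h1
  have h2 := d.uniq h1 hY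
  obtain ⟨h3, h4⟩ := K1 d.hy' (d.sk2 hY) h2
  refine ⟨Y *ᵥ v', ho, h4, ?_⟩
  rw [← h3]
  exact hY

lemma D.th_uniq (d : D sg sg' 𝔟 u v u' v') {w : VN n} {a b : VN n'} (h : Th sg sg' 𝔟 u v u' v' w a)
    (h2 : Th sg sg' 𝔟 u v u' v' w b) : a = b :=
  Ns_inj d.hy' h.o' h2.o' (d.uniq h.m h2.m)

lemma or_add {u v a b : VN n} (ha : Or sg u v a)
    (hb : Or sg u v b) : Or sg u v (a + b) :=
  ⟨by rw [hs_add_left, ha.wu, hb.wu, add_zero], by rw [hs_add_left, ha.wv, hb.wv, add_zero]⟩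

lemma Th.add {a b : VN n} {a' b' : VN n'} (h : Th sg sg' 𝔟 u v u' v' a a')
    (h2 : Th sg sg' 𝔟 u v u' v' b b') : Th sg sg' 𝔟 u v u' v' (a + b) (a' + b') := by
  refine ⟨or_add h.o h2.o, or_add h.o' h2.o', ?_⟩
  rw [Ns_add, Ns_add]
  exact add_m h.m h2.m

lemma Th.real {a : VN n} {a' : VN n'} (h : Th sg sg' 𝔟 u v u' v' a a') {c : ℂ} (hc : star c = c) :
    Th sg sg' 𝔟 u v u' v' (c • a) (c • a') := by
  refine ⟨h.o.smul c, h.o'.smul c, ?_⟩
  rw [Ns_real _ _ hc, Ns_real _ _ hc]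
  exact rsm h.m hc

lemma Th.step1 (d : D sg sg' 𝔟 u v u' v') {a : VN n} {a' : VN n'} (h : Th sg sg' 𝔟 u v u' v' a a') :
    (Ns sg v (Complex.I • a), Ns sg' v' (Complex.I • a')) ∈ 𝔟 := by
  have h1 := d.brm h.m d.mf
  rw [A1 d.hy h.o, A1 d.hy' h.o'] at h1
  rwa [Ns_I, Ns_I]

lemma Th.hs_sq (d : D sg sg' 𝔟 u v u' v') {a : VN n} {a' : VN n'} (h : Th sg sg' 𝔟 u v u' v' a a') :
    hs sg' a' a' ^ 2 = hs sg a a ^ 2 := by
  have h1 := d.brm h.m d.mf
  rw [A1 d.hy h.o, A1 d.hy' h.o'] at h1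
  have h2 := d.brm h.m h1
  rw [A2 d.hy h.o, A2 d.hy' h.o'] at h2
  have h3 := d.brm h.m h2
  rw [A3 d.hy h.o, A3 d.hy' h.o'] at h3
  have h4 := d.brm h.m h3
  rw [A4 d.hy h.o, A4 d.hy' h.o'] at h4
  have hr : star (6 * hs sg a a ^ 2) = 6 * hs sg a a ^ 2 := by
    rw [star_mul', star_pow, hs_self]
    norm_num
  have h5 := rsm d.me hr
  rw [smul_comm _ Complex.I, smul_comm _ Complex.I] at h5
  have h6 := d.uniq h4 h5
  have h7 : (Complex.I • ((6 * hs sg' a' a' ^ 2) • Rs sg' u' u')) *ᵥ v' =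
      (Complex.I • ((6 * hs sg a a ^ 2) • Rs sg' u' u')) *ᵥ v' := by rw [h6]
  rw [Matrix.smul_mulVec, Matrix.smul_mulVec, Matrix.smul_mulVec, Matrix.smul_mulVec, Rs_apply,
    d.hy'.vu, one_smul] at h7
  have h8 : hs sg' ((6 * hs sg' a' a' ^ 2) • u') v' = hs sg' ((6 * hs sg a a ^ 2) • u') v' := by
    rw [smul_right_injective _ Complex.I_ne_zero h7]
  rw [hs_smul_left, hs_smul_left, d.hy'.uv, mul_one, mul_one] at h8
  linear_combination (1 / 6 : ℂ) * h8

/-- the two signs -/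
lemma D.sign (d : D sg sg' 𝔟 u v u' v') {a b : VN n} {a' b' : VN n'}
    (h : Th sg sg' 𝔟 u v u' v' a a') (h2 : Th sg sg' 𝔟 u v u' v' b b') :
    hs sg' a' a' = hs sg a a ∨ hs sg' b' b' = -hs sg b b := by
  by_contra hcon
  push Not at hcon
  obtain ⟨n1, n2⟩ := hcon
  have k1 := h.hs_sq d
  have k2 := h2.hs_sq d
  have k3 := (h.add h2).hs_sq d
  have k4 := (h.add (h2.real (c := -1) (by rw [star_neg, star_one]))).hs_sq d
  have k5 := (h.add (h2.real (c := 2) (by rw [Complex.star_def, map_ofNat]))).hs_sq d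
  have s1 : star (-1 : ℂ) = -1 := by rw [star_neg, star_one]
  have s2 : star (2 : ℂ) = 2 := by rw [Complex.star_def, map_ofNat]
  simp only [hs_add_left, hs_add_right, hs_smul_left, hs_smul_right, s1, s2] at k3 k4 k5
  have e1 : hs sg' a' a' = -hs sg a a := by
    rcases sq_eq_sq_iff_eq_or_eq_neg.1 k1 with h3 | h3
    · exact absurd h3 n1
    · exact h3
  have e2 : hs sg' b' b' = hs sg b b := by
    rcases sq_eq_sq_iff_eq_or_eq_neg.1 k2 with h3 | h3
    · exact h3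
    · exact absurd h3 n2
  rw [e1, e2] at k3 k4 k5
  rw [e1] at n1
  rw [e2] at n2
  generalize hs sg a a = A at *
  generalize hs sg b b = B at *
  generalize hs sg a b = x at *
  generalize hs sg b a = y at *
  generalize hs sg' a' b' = x' at *
  generalize hs sg' b' a' = y' at *
  have hA : A ≠ 0 := by
    rintro rfl
    exact n1 neg_zero
  have hB : B ≠ 0 := by
    rintro rfl
    exact n2 neg_zero.symm
  have m1 : B * (x' + y' - x - y) = 0 := by
    linear_combination (1 / 12 : ℂ) * k5 - (1 / 4 : ℂ) * k3 - (1 / 12 : ℂ) * k4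
  have m2 : x' + y' - x - y = 0 := (mul_eq_zero.1 m1).resolve_left hB
  have m3 : A * B = 0 := by
    linear_combination (-1 / 8 : ℂ) * k3 - (1 / 8 : ℂ) * k4 +
      (1 / 4 : ℂ) * (x' + y' + x + y) * m2
  rcases mul_eq_zero.1 m3 with h3 | h3
  · exact hA h3
  · exact hB h3

/-- the plus sign -/
def Plus (sg : Fin n → ℝ) (sg' : Fin n' → ℝ) (𝔟 : Submodule ℝ (MN n × MN n')) (u v : VN n)
    (u' v' : VN n') : Prop :=
  ∀ (a : VN n) (a' : VN n'), Th sg sg' 𝔟 u v u' v' a a' → hs sg' a' a' = hs sg a a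

/-- the minus sign -/
def Minus (sg : Fin n → ℝ) (sg' : Fin n' → ℝ) (𝔟 : Submodule ℝ (MN n × MN n')) (u v : VN n)
    (u' v' : VN n') : Prop :=
  ∀ (a : VN n) (a' : VN n'), Th sg sg' 𝔟 u v u' v' a a' → hs sg' a' a' = -hs sg a a

lemma D.plus_or_minus (d : D sg sg' 𝔟 u v u' v') :
    Plus sg sg' 𝔟 u v u' v' ∨ Minus sg sg' 𝔟 u v u' v' := by
  by_contra hcon
  push Not at hcon
  obtain ⟨h1, h2⟩ := hcon
  unfold Plus at h1
  unfold Minus at h2
  push Not at h1 h2
  obtain ⟨a, a', h3, h4⟩ := h1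
  obtain ⟨b, b', h5, h6⟩ := h2
  rcases d.sign h3 h5 with h7 | h7
  · exact h4 h7
  · exact h6 h7

lemma Th.hs_eq (pl : Plus sg sg' 𝔟 u v u' v') {a : VN n} {a' : VN n'}
    (h : Th sg sg' 𝔟 u v u' v' a a') : hs sg a a = hs sg' a' a' := (pl a a' h).symm

/-- the vector `i a` corresponds to `i a'` if `a` is not isotropic -/
lemma Th.I0 (d : D sg sg' 𝔟 u v u' v') (pl : Plus sg sg' 𝔟 u v u' v') {a : VN n} {a' : VN n'}
    (h : Th sg sg' 𝔟 u v u' v' a a') (hne : hs sg a a ≠ 0) :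
    Th sg sg' 𝔟 u v u' v' (Complex.I • a) (Complex.I • a') := by
  refine ⟨h.o.smul _, h.o'.smul _, ?_⟩
  have h1 := h.step1 d
  have h2 := d.brm h.m h1
  have h3 := d.brm h2 h.m
  rw [L2 d.hy h.o (d.sk1 h2), L2 d.hy' h.o' (d.sk2 h2), ← h.hs_eq pl] at h3
  have hr : star (3 * hs sg a a) = 3 * hs sg a a := by
    rw [star_mul', hs_self]
    simp
  have h4 := rsm h3 (c := (3 * hs sg a a)⁻¹) (by rw [star_inv₀, hr])
  rwa [inv_smul_smul₀ (mul_ne_zero (by norm_num) hne),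
    inv_smul_smul₀ (mul_ne_zero (by norm_num) hne)] at h4

lemma Th.sub {a b : VN n} {a' b' : VN n'} (h : Th sg sg' 𝔟 u v u' v' a a')
    (h2 : Th sg sg' 𝔟 u v u' v' b b') : Th sg sg' 𝔟 u v u' v' (a - b) (a' - b') := by
  have h3 := h.add (h2.real (c := -1) (by rw [star_neg, star_one]))
  rwa [neg_one_smul, neg_one_smul, ← sub_eq_add_neg, ← sub_eq_add_neg] at h3

/-- the form is nondegenerate -/
lemma exists_ne (hsg : IsSg sg) {a : VN n} (ha : a ≠ 0) : ∃ x, hs sg a x ≠ 0 := by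
  obtain ⟨i, hi⟩ : ∃ i, a i ≠ 0 := by
    by_contra hcon
    push Not at hcon
    exact ha (funext hcon)
  refine ⟨Pi.single i 1, ?_⟩
  unfold hs
  rw [Finset.sum_eq_single i]
  · rw [Pi.single_eq_same, star_one, mul_one]
    refine mul_ne_zero ?_ hi
    rcases hsg i with h | h
    · rw [h, Complex.ofReal_one]
      exact one_ne_zero
    · rw [h, Complex.ofReal_neg, Complex.ofReal_one]
      exact neg_ne_zero.2 one_ne_zero
  · intro j _ hj
    rw [Pi.single_eq_of_ne hj, star_zero, mul_zero]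
  · intro h
    exact absurd (Finset.mem_univ i) h

/-- there is a vector of nonzero length orthogonal to `u`, `v` if there is a nonzero vector -/
lemma exists_non (hsg : IsSg sg) {u v a : VN n} (hy : Hy sg u v) (ho : Or sg u v a) (ha : a ≠ 0) :
    ∃ b, Or sg u v b ∧ hs sg b b ≠ 0 := by
  obtain ⟨x, hx⟩ := exists_ne hsg ha
  have hox := pr_or hy x
  have e : hs sg a (pr sg u v x) = hs sg a x := by
    unfold pr
    rw [hs_sub_right, hs_sub_right, hs_smul_right, hs_smul_right, ho.wu, ho.wv]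
    ring
  obtain ⟨c, hc⟩ : ∃ c, c = pr sg u v x := ⟨_, rfl⟩
  rw [← hc] at e hox
  rw [← e] at hx
  by_cases h1 : hs sg a a = 0
  · by_cases h2 : hs sg c c = 0
    · refine ⟨a + hs sg a c • c, or_add ho (hox.smul _), ?_⟩
      have h3 : hs sg (a + hs sg a c • c) (a + hs sg a c • c) = 2 * (hs sg a c * star (hs sg a c)) := by
        simp only [hs_add_left, hs_add_right, hs_smul_left, hs_smul_right]
        rw [h1, h2, hs_conj a c]
        ring
      rw [h3]
      exact mul_ne_zero two_ne_zero (mul_ne_zero hx (star_ne_zero.2 hx))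
    · exact ⟨c, hox, h2⟩
  · exact ⟨a, ho, h1⟩

lemma Th.I (d : D sg sg' 𝔟 u v u' v') (pl : Plus sg sg' 𝔟 u v u' v') {a : VN n} {a' : VN n'}
    (h : Th sg sg' 𝔟 u v u' v' a a') :
    Th sg sg' 𝔟 u v u' v' (Complex.I • a) (Complex.I • a') := by
  by_cases ha : a = 0
  · have ha' : a' = 0 := by
      have h1 : Th sg sg' 𝔟 u v u' v' a 0 := by
        refine ⟨h.o, ⟨hs_zero_left _, hs_zero_left _⟩, ?_⟩
        rw [ha, Ns_zero, Ns_zero]
        exact 𝔟.zero_mem
      exact d.th_uniq h h1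
    rw [ha, ha', smul_zero, smul_zero]
    rw [ha, ha'] at h
    exact h
  by_cases h0 : hs sg a a = 0
  swap
  · exact h.I0 d pl h0
  obtain ⟨b, hob, hb⟩ := exists_non d.sgn d.hy h.o ha
  obtain ⟨b', h2⟩ := d.th hob
  by_cases h3 : hs sg (b + a) (b + a) = 0
  · have h4 : hs sg (b - a) (b - a) ≠ 0 := by
      intro h5
      apply hb
      rw [hs_add_left, hs_add_right, hs_add_right] at h3
      rw [hs_sub_left, hs_sub_right, hs_sub_right] at h5
      linear_combination (1 / 2 : ℂ) * h3 + (1 / 2 : ℂ) * h5 - h0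
    have h5 := (h2.sub h).I0 d pl h4
    have h6 := (h2.I0 d pl hb).sub h5
    rwa [← smul_sub, ← smul_sub, sub_sub_cancel, sub_sub_cancel] at h6
  · have h5 := (h2.add h).I0 d pl h3
    have h6 := h5.sub (h2.I0 d pl hb)
    rwa [← smul_sub, ← smul_sub, add_sub_cancel_left, add_sub_cancel_left] at h6

lemma Th.smul (d : D sg sg' 𝔟 u v u' v') (pl : Plus sg sg' 𝔟 u v u' v') {a : VN n} {a' : VN n'} (h : Th sg sg' 𝔟 u v u' v' a a') (c : ℂ) :
    Th sg sg' 𝔟 u v u' v' (c • a) (c • a') := by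
  have e : ∀ {m : ℕ} (a : VN m), c • a = (c.re : ℂ) • a + (c.im : ℂ) • (Complex.I • a) := by
    intro m a
    rw [smul_smul, ← add_smul, Complex.re_add_im]
  rw [e, e]
  exact (h.real (Complex.conj_ofReal _)).add ((h.I d pl).real (Complex.conj_ofReal _))

lemma Th.Nv (d : D sg sg' 𝔟 u v u' v') (pl : Plus sg sg' 𝔟 u v u' v') {a : VN n} {a' : VN n'} (h : Th sg sg' 𝔟 u v u' v' a a') (c : ℂ) :
    (Ns sg v (c • a), Ns sg' v' (c • a')) ∈ 𝔟 := by
  have h1 := (h.smul d pl (-Complex.I * c)).step1 d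
  have e : Complex.I * (-Complex.I * c) = c := by
    linear_combination (-c) * Complex.I_mul_I
  rwa [smul_smul, smul_smul, e] at h1

lemma Th.hf2 (d : D sg sg' 𝔟 u v u' v') (pl : Plus sg sg' 𝔟 u v u' v') {a b : VN n} {a' b' : VN n'} (h : Th sg sg' 𝔟 u v u' v' a a')
    (h2 : Th sg sg' 𝔟 u v u' v' b b') : hs sg a b = hs sg' a' b' := by
  have k1 := (h.add h2).hs_eq pl
  have k2 := (h.add (h2.I d pl)).hs_eq pl
  have k3 := h.hs_eq pl
  have k4 := h2.hs_eq pl
  simp only [hs_add_left, hs_add_right, hs_smul_left, hs_smul_right, Complex.star_def,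
    Complex.conj_I] at k1 k2
  have hI : Complex.I * Complex.I = -1 := Complex.I_mul_I
  linear_combination (1 / 2 : ℂ) * k1 + (Complex.I / 2) * k2 - ((1 + Complex.I) / 2) * k3 -
    ((1 + Complex.I) / 2) * k4 + ((hs sg a b - hs sg' a' b') / 2 - (hs sg b a - hs sg' b' a') / 2 +
      Complex.I * (hs sg b b - hs sg' b' b') / 2) * hI

/-- the map on the orthogonal complement -/
def the (d : D sg sg' 𝔟 u v u' v') (pl : Plus sg sg' 𝔟 u v u' v') (x : VN n) : VN n' := (d.th (pr_or d.hy x)).choose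

lemma the_spec (d : D sg sg' 𝔟 u v u' v') (pl : Plus sg sg' 𝔟 u v u' v') (x : VN n) :
    Th sg sg' 𝔟 u v u' v' (pr sg u v x) (the d pl x) := (d.th (pr_or d.hy x)).choose_spec

/-- the intertwining map -/
def sig (d : D sg sg' 𝔟 u v u' v') (pl : Plus sg sg' 𝔟 u v u' v') : VN n →ₗ[ℂ] VN n' where
  toFun x := hs sg x v • u' + hs sg x u • v' + the d pl x
  map_add' x y := by
    have e : the d pl (x + y) = the d pl x + the d pl y := by
      apply d.th_uniq (the_spec d pl (x + y))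
      rw [pr_add]
      exact (the_spec d pl x).add (the_spec d pl y)
    rw [e, hs_add_left, hs_add_left, add_smul, add_smul]
    abel
  map_smul' c x := by
    have e : the d pl (c • x) = c • the d pl x := by
      apply d.th_uniq (the_spec d pl (c • x))
      rw [pr_smul]
      exact (the_spec d pl x).smul d pl c
    rw [e, hs_smul_left, hs_smul_left, RingHom.id_apply, smul_add, smul_add, mul_smul, mul_smul]

lemma sig_apply (d : D sg sg' 𝔟 u v u' v') (pl : Plus sg sg' 𝔟 u v u' v') (x : VN n) :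
    sig d pl x = hs sg x v • u' + hs sg x u • v' + the d pl x := rfl

lemma sig_iso (d : D sg sg' 𝔟 u v u' v') (pl : Plus sg sg' 𝔟 u v u' v') (x y : VN n) :
    hs sg' (sig d pl x) (sig d pl y) = hs sg x y := by
  have hx := the_spec d pl x
  have hy := the_spec d pl y
  have h := hx.hf2 d pl hy
  rw [sig_apply, sig_apply]
  have e : hs sg x y = hs sg (hs sg x v • u + hs sg x u • v + pr sg u v x)
      (hs sg y v • u + hs sg y u • v + pr sg u v y) := by rw [← pr_eq sg u v x, ← pr_eq sg u v y]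
  rw [e]
  simp only [hs_add_left, hs_add_right, hs_smul_left, hs_smul_right, d.hy.uu, d.hy.vv, d.hy.uv,
    d.hy.vu, d.hy'.uu, d.hy'.vv, d.hy'.uv, d.hy'.vu, hx.o.wu, hx.o.wv, hx.o'.wu, hx.o'.wv,
    hy.o.uw, hy.o.vw, hy.o'.uw, hy.o'.vw, h]

lemma root_mem (d : D sg sg' 𝔟 u v u' v') (pl : Plus sg sg' 𝔟 u v u' v') (x : VN n) (hx : hs sg x x = 0) :
    (Complex.I • Rs sg x x, Complex.I • Rs sg' (sig d pl x) (sig d pl x)) ∈ 𝔟 := by
  have ht := the_spec d pl x
  have ex := pr_eq sg u v x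
  have es := sig_apply d pl x
  set a := hs sg x v with ha
  set b := hs sg x u with hb
  set w := pr sg u v x with hw
  set w' := the d pl x with hw'
  have hh : hs sg w w = -(a * star b + b * star a) := by
    have h3 : hs sg x x = a * star b + b * star a + hs sg w w := by
      rw [ex]
      simp only [hs_add_left, hs_add_right, hs_smul_left, hs_smul_right, d.hy.uu, d.hy.vv, d.hy.uv,
        d.hy.vu, ht.o.wu, ht.o.wv, ht.o.uw, ht.o.vw]
      ring
    rw [hx] at h3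
    linear_combination -h3
  have hh' : hs sg' w' w' = -(a * star b + b * star a) := by rw [← ht.hs_eq pl, hh]
  have k1 := L9 (u := u) (v := v) a b hh
  have k2 := L9 (u := u') (v := v') a b hh'
  rw [← ex] at k1
  rw [← es] at k2
  rw [k1, k2]
  have h2 : (Complex.I • ((2 : ℂ) • Rs sg w w - hs sg w w • (Rs sg u v + Rs sg v u)),
      Complex.I • ((2 : ℂ) • Rs sg' w' w' - hs sg' w' w' • (Rs sg' u' v' + Rs sg' v' u'))) ∈ 𝔟 := by
    have h3 := d.brm ht.m (d.brm ht.m d.mf)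
    rwa [A1 d.hy ht.o, A1 d.hy' ht.o', A2 d.hy ht.o, A2 d.hy' ht.o'] at h3
  have g3 := rsm d.me (c := a * star a) (by rw [star_mul', star_star]; ring)
  have g4 := rsm d.mf (c := b * star b) (by rw [star_mul', star_star]; ring)
  have g5 := (ht.smul d pl (Complex.I * star a)).m
  have g6 := ht.Nv d pl (Complex.I * star b)
  have g7 := rsm d.Hm (c := Complex.I * (a * star b - b * star a) / 2) (by
    rw [Complex.star_def, map_div₀, map_mul, map_sub, map_mul, map_mul, Complex.conj_I,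
      ← Complex.star_def, star_star, star_star]
    simp
    ring)
  have g8 : ((1 / 2 : ℝ) • (Complex.I • ((2 : ℂ) • Rs sg w w - hs sg w w • (Rs sg u v + Rs sg v u))),
      (1 / 2 : ℝ) • (Complex.I • ((2 : ℂ) • Rs sg' w' w' - hs sg' w' w' • (Rs sg' u' v' + Rs sg' v' u')))) ∈ 𝔟 :=
    𝔟.smul_mem _ h2
  exact add_m (add_m (add_m (add_m (add_m g3 g4) g5) g6) g7) g8

lemma mat_ext2 {m k : ℕ} {A B : Matrix (Fin m) (Fin k) ℂ} (h : ∀ x, A *ᵥ x = B *ᵥ x) : A = B := by
  apply Matrix.toLin'.injective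
  ext1 x
  apply LinearMap.ext
  intro y
  simp only [LinearMap.comp_apply, Matrix.toLin'_apply]
  exact h _

/-- the linear case -/
theorem plus_main (d : D sg sg' 𝔟 u v u' v') (pl : Plus sg sg' 𝔟 u v u' v') :
    ∃ S : Matrix (Fin n') (Fin n) ℂ, S ≠ 0 ∧ ∀ p ∈ 𝔟, p.2 * S = S * p.1 := by
  obtain ⟨S, hS⟩ : ∃ S : Matrix (Fin n') (Fin n) ℂ, S = LinearMap.toMatrix' (sig d pl) := ⟨_, rfl⟩
  have hSx : ∀ x, S *ᵥ x = sig d pl x := fun x => by
    rw [hS]
    exact LinearMap.toMatrix'_mulVec _ _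
  refine ⟨S, ?_, ?_⟩
  · intro h0
    have h1 := sig_iso d pl u v
    rw [← hSx, h0, Matrix.zero_mulVec, hs_zero_left, d.hy.uv] at h1
    exact zero_ne_one h1
  · let 𝔠 : Submodule ℝ (MN n) :=
      { carrier := {X | ∃ Y, (X, Y) ∈ 𝔟 ∧ Y * S = S * X}
        zero_mem' := ⟨0, 𝔟.zero_mem, by rw [Matrix.zero_mul, Matrix.mul_zero]⟩
        add_mem' := by
          rintro X X2 ⟨Y, h1, h2⟩ ⟨Y2, h3, h4⟩
          exact ⟨Y + Y2, add_m h1 h3, by rw [Matrix.add_mul, Matrix.mul_add, h2, h4]⟩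
        smul_mem' := by
          rintro c X ⟨Y, h1, h2⟩
          exact ⟨c • Y, 𝔟.smul_mem c h1, by rw [Matrix.smul_mul, Matrix.mul_smul, h2]⟩ }
    have hc : Submodule.span ℝ {Y : MN n | ∃ x : VN n, hs sg x x = 0 ∧ Y = Complex.I • Rs sg x x} ≤
        𝔠 := by
      rw [Submodule.span_le]
      rintro Y ⟨x, hx, rfl⟩
      refine ⟨_, root_mem d pl x hx, ?_⟩
      apply mat_ext2
      intro y
      rw [← Matrix.mulVec_mulVec, ← Matrix.mulVec_mulVec, hSx, Matrix.smul_mulVec,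
        Matrix.smul_mulVec, Rs_apply, Rs_apply, sig_iso, hSx, map_smul, map_smul]
    rintro ⟨X, Y⟩ hp
    have hX : X ∈ 𝔠 := hc (d.su X (d.sk1 hp) (d.P.tr1 (X, Y) hp))
    obtain ⟨Y2, h1, h2⟩ := hX
    have h3 := d.uniq hp h1
    show Y * S = S * X
    rw [h3, h2]

/-! ### Conjugation -/

/-- the conjugate matrix -/
def cj (X : MN n) : MN n := X.map star

lemma cj_cj (X : MN n) : cj (cj X) = X := by
  ext i j
  exact star_star _

lemma cj_zero : cj (0 : MN n) = 0 := by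
  ext i j
  exact star_zero _

lemma cj_add (X Y : MN n) : cj (X + Y) = cj X + cj Y := by
  ext i j
  exact star_add _ _

lemma cj_sub (X Y : MN n) : cj (X - Y) = cj X - cj Y := by
  ext i j
  exact star_sub _ _

lemma cj_smul (c : ℂ) (X : MN n) : cj (c • X) = star c • cj X := by
  ext i j
  exact star_mul' _ _

lemma cj_rsmul (c : ℝ) (X : MN n) : cj (c • X) = c • cj X := by
  have h := cj_smul (c : ℂ) X
  rwa [Complex.star_def, Complex.conj_ofReal, Complex.coe_smul, Complex.coe_smul] at h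

lemma cj_mul (X Y : MN n) : cj (X * Y) = cj X * cj Y := by
  ext i j
  unfold cj
  rw [Matrix.map_apply, Matrix.mul_apply, Matrix.mul_apply, star_sum]
  refine Finset.sum_congr rfl fun k _ => ?_
  rw [star_mul', Matrix.map_apply, Matrix.map_apply]

lemma cj_trace (X : MN n) : (cj X).trace = star X.trace := by
  unfold Matrix.trace
  rw [star_sum]
  rfl

/-- the form of the conjugate vectors with the opposite signature -/
lemma hs_neg_sg (x y : VN n) : hs (-sg) x y = -star (hs sg (star x) (star y)) := by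
  unfold hs
  rw [star_sum, ← Finset.sum_neg_distrib]
  refine Finset.sum_congr rfl fun i _ => ?_
  rw [Pi.neg_apply, Pi.star_apply, Pi.star_apply, star_mul', star_mul', star_star, star_star,
    Complex.star_def, Complex.conj_ofReal, Complex.ofReal_neg]
  ring

lemma hs_neg_sg' (x y : VN n) : hs (-sg) x y = -hs sg x y := by
  unfold hs
  rw [← Finset.sum_neg_distrib]
  refine Finset.sum_congr rfl fun i _ => ?_
  rw [Pi.neg_apply, Complex.ofReal_neg]
  ring

lemma hs_star (x y : VN n) : hs sg (star x) (star y) = star (hs sg x y) := by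
  have h1 := hs_neg_sg (sg := sg) x y
  rw [hs_neg_sg'] at h1
  rw [neg_inj] at h1
  rw [h1, star_star]

lemma cj_Rs (a b : VN n) : cj (Rs (-sg) a b) = -Rs sg (star a) (star b) := by
  ext i j
  unfold cj Rs
  rw [Matrix.map_apply, Matrix.of_apply, Matrix.neg_apply, Matrix.of_apply, hs_neg_sg', star_mul',
    star_neg, ← hs_star]
  have e : star (Pi.single j 1 : VN n) = Pi.single j 1 := by
    rw [← Pi.single_star, star_one]
  rw [e, Pi.star_apply]
  ring

lemma cj_mulVec (X : MN n) (x : VN n) : cj X *ᵥ star x = star (X *ᵥ x) := by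
  funext i
  unfold cj
  rw [Pi.star_apply]
  show ∑ j, (X.map star) i j * star x j = star (∑ j, X i j * x j)
  rw [star_sum]
  refine Finset.sum_congr rfl fun j _ => ?_
  rw [star_mul', Matrix.map_apply, Pi.star_apply]

lemma IsSks.neg_cj {X : MN n} (h : IsSks sg (cj X)) : IsSks (-sg) X := by
  intro x y
  have h1 := h (star x) (star y)
  rw [cj_mulVec, cj_mulVec, hs_star, hs_star, ← star_add] at h1
  have h2 := star_eq_zero.1 h1
  rw [hs_neg_sg', hs_neg_sg']
  linear_combination -h2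

/-- the conjugate Lie algebra -/
def conjB (𝔟 : Submodule ℝ (MN n × MN n')) : Submodule ℝ (MN n × MN n') where
  carrier := {p | (cj p.1, p.2) ∈ 𝔟}
  zero_mem' := by
    show (cj (0 : MN n), (0 : MN n')) ∈ 𝔟
    rw [cj_zero]
    exact 𝔟.zero_mem
  add_mem' := by
    intro p q hp hq
    show (cj (p.1 + q.1), p.2 + q.2) ∈ 𝔟
    rw [cj_add]
    exact 𝔟.add_mem hp hq
  smul_mem' := by
    intro c p hp
    show (cj (c • p.1), c • p.2) ∈ 𝔟
    rw [cj_rsmul]
    exact 𝔟.smul_mem c hp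

lemma mem_conjB {X : MN n} {Y : MN n'} : (X, Y) ∈ conjB 𝔟 ↔ (cj X, Y) ∈ 𝔟 := Iff.rfl

lemma I_Rs_conj (x : VN n) :
    cj (Complex.I • Rs (-sg) x x) = Complex.I • Rs sg (star x) (star x) := by
  rw [cj_smul, cj_Rs, Complex.star_def, Complex.conj_I, neg_smul, smul_neg, neg_neg]

lemma D.conj (d : D sg sg' 𝔟 u v u' v') (hSU : ∀ X : MN n, IsSks (-sg) X → X.trace = 0 →
    X ∈ Submodule.span ℝ {Y : MN n | ∃ x : VN n, hs (-sg) x x = 0 ∧
      Y = Complex.I • Rs (-sg) x x}) :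
    D (-sg) sg' (conjB 𝔟) (star u) (-star v) u' v' := by
  refine ⟨⟨?_, ?_, ?_, ?_, ?_, ?_, ?_⟩, ?_, hSU, ?_, ⟨?_, ?_, ?_⟩, d.hy', ?_, ?_⟩
  · rintro ⟨X, Y⟩ hp ⟨X2, Y2⟩ hq
    have h := d.P.br (cj X, Y) hp (cj X2, Y2) hq
    show (cj (X * X2 - X2 * X), Y * Y2 - Y2 * Y) ∈ 𝔟
    rw [cj_sub, cj_mul, cj_mul]
    exact h
  · rintro ⟨X, Y⟩ hp
    exact IsSks.neg_cj (d.P.sk1 (cj X, Y) hp)
  · rintro ⟨X, Y⟩ hp
    exact d.P.sk2 (cj X, Y) hp
  · rintro ⟨X, Y⟩ hp
    have h := d.P.tr1 (cj X, Y) hp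
    have h2 : (cj X).trace = 0 := h
    rw [cj_trace] at h2
    exact star_eq_zero.1 h2
  · rintro ⟨X, Y⟩ hp
    exact d.P.tr2 (cj X, Y) hp
  · intro x hx
    obtain ⟨Y, hY⟩ := d.P.all1 (star x) (by
      rw [hs_neg_sg'] at hx
      rw [hs_star, neg_eq_zero.1 hx, star_zero])
    refine ⟨Y, ?_⟩
    rw [mem_conjB, I_Rs_conj]
    exact hY
  · intro y hy
    obtain ⟨X, hX⟩ := d.P.all2 y hy
    refine ⟨cj X, ?_⟩
    rw [mem_conjB, cj_cj]
    exact hX
  · intro i
    rw [Pi.neg_apply]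
    rcases d.sgn i with h | h
    · right; rw [h]
    · left; rw [h, neg_neg]
  · intro Y hY
    rw [mem_conjB, cj_zero] at hY
    exact d.i2 Y hY
  · rw [hs_neg_sg', hs_star, d.hy.uu, star_zero, neg_zero]
  · rw [hs_neg_sg', ← neg_one_smul ℂ (star v), hs_smul_left, hs_smul_right, hs_star, d.hy.vv,
      star_zero, mul_zero, mul_zero, neg_zero]
  · rw [hs_neg_sg', ← neg_one_smul ℂ (star v), hs_smul_right, hs_star, d.hy.uv, star_one, star_neg,
      star_one]
    norm_num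
  · rw [mem_conjB, I_Rs_conj, star_star]
    exact d.me
  · rw [mem_conjB, I_Rs_conj, star_neg, star_star, ← neg_one_smul ℂ v, Rs_smul_left, Rs_smul_right,
      star_neg, star_one, smul_smul, smul_smul, mul_assoc, neg_one_mul, neg_neg, mul_one]
    exact d.mf

lemma plus_conj (d : D sg sg' 𝔟 u v u' v') (mi : Minus sg sg' 𝔟 u v u' v') :
    Plus (-sg) sg' (conjB 𝔟) (star u) (-star v) u' v' := by
  intro w w' h
  have h1 : Th sg sg' 𝔟 u v u' v' (-star w) w' := by
    refine ⟨⟨?_, ?_⟩, h.o', ?_⟩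
    · have h2 := h.o.wu
      rw [hs_neg_sg', neg_eq_zero, ← star_star w, hs_star, star_eq_zero] at h2
      rw [← neg_one_smul ℂ (star w), hs_smul_left, h2, mul_zero]
    · have h2 := h.o.wv
      rw [hs_neg_sg', neg_eq_zero, ← neg_one_smul ℂ (star v), hs_smul_right, ← star_star w,
        hs_star] at h2
      have h3 : hs sg (star w) v = 0 := by
        rcases mul_eq_zero.1 h2 with h4 | h4
        · exact absurd h4 (star_ne_zero.2 (neg_ne_zero.2 one_ne_zero))
        · exact star_eq_zero.1 h4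
      rw [← neg_one_smul ℂ (star w), hs_smul_left, h3, mul_zero]
    · have h2 := h.m
      rw [mem_conjB] at h2
      have e : cj (Ns (-sg) (star u) w) = Ns sg u (-star w) := by
        unfold Ns
        rw [cj_sub, cj_Rs, cj_Rs, star_star, ← neg_one_smul ℂ (star w), Rs_smul_left,
          Rs_smul_right, star_neg, star_one, neg_one_smul, neg_one_smul]
      rwa [e] at h2
  have h2 := mi _ _ h1
  rw [h2, hs_neg_sg', ← neg_one_smul ℂ (star w), hs_smul_left, hs_smul_right, hs_star, hs_self,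
    star_neg, star_one]
  ring

theorem main (hSU : G_SU) : G_P2 := by
  intro n n' sg sg' hsg hmx hsg' hmx' 𝔟 hP _ i2 u v u' v' huu hvv huv huu' hvv' huv' me mf
  have d : D sg sg' 𝔟 u v u' v' :=
    ⟨hP, hsg, hSU n sg hsg hmx, i2, ⟨huu, hvv, huv⟩, ⟨huu', hvv', huv'⟩, me, mf⟩
  rcases d.plus_or_minus with pl | mi
  · exact Or.inl (plus_main d pl)
  · right
    have hsg2 : IsSg (-sg) := by
      intro i
      rw [Pi.neg_apply]
      rcases hsg i with h | h
      · right; rw [h]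
      · left; rw [h, neg_neg]
    have hmx2 : Mixed (-sg) := by
      obtain ⟨⟨i, hi⟩, j, hj⟩ := hmx
      exact ⟨⟨j, by rw [Pi.neg_apply, hj, neg_neg]⟩, i, by rw [Pi.neg_apply, hi]⟩
    have d2 := d.conj (hSU n (-sg) hsg2 hmx2)
    obtain ⟨S, h1, h2⟩ := plus_main d2 (plus_conj d mi)
    refine ⟨S, h1, ?_⟩
    rintro ⟨X, Y⟩ hp
    have h3 : (cj X, Y) ∈ conjB 𝔟 := by
      rw [mem_conjB, cj_cj]
      exact hp
    exact h2 _ h3

end Pool.Agent.N507.BGP2
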