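import Pool.Agent.N661.BR.Base

/-!
# Project BR (helper661), part GN: the families of quadratic expressions (helper507)
-/

set_option autoImplicit false
open MeasureTheory Filter Topology Complex ProbabilityTheory
open scoped ContDiff

namespace Pool.Agent.N507.BRGN

open Pool.Agent.W745.RW (lap dx dy TF Dp Dm W Sol Sys)
open Pool.Agent.N661.BR

noncomputable section

/-- the linear form with the values `g j` -/
def LC {M : Type} [AddCommGroup M] [Module ℝ M] (g : ℤ → M) : (ℤ →₀ ℝ) →ₗ[ℝ] M :=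
  Finsupp.linearCombination ℝ g

theorem LC_apply {M : Type} [AddCommGroup M] [Module ℝ M] (g : ℤ → M) (v : ℤ →₀ ℝ) :
    LC g v = ∑ j ∈ v.support, v j • g j := rfl

theorem LC_single {M : Type} [AddCommGroup M] [Module ℝ M] (g : ℤ → M) (a : ℤ) (c : ℝ) :
    LC g (Finsupp.single a c) = c • g a := Finsupp.linearCombination_single ℝ c a

theorem LC_vA {M : Type} [AddCommGroup M] [Module ℝ M] (g : ℤ → M) (p : ℤ) (N : ℕ) :
    LC g (vA p N) = ∑ j ∈ Finset.range N, (1 / (N : ℝ)) • g (2 * (j : ℤ) + p) := by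
  unfold vA
  rw [map_sum]
  exact Finset.sum_congr rfl fun j _ => LC_single g _ _

theorem LC_set {M : Type} [AddCommGroup M] [Module ℝ M] (g : ℤ → M) (v : ℤ →₀ ℝ)
    (F : Finset ℤ) (hF : v.support ⊆ F) : LC g v = ∑ j ∈ F, v j • g j := by
  rw [LC_apply]
  refine Finset.sum_subset hF fun j _ hj => ?_
  rw [Finsupp.notMem_support_iff.1 hj, zero_smul]

/-! ### Values of `vA` -/

theorem vA_apply (p : ℤ) (N : ℕ) (x : ℤ) :
    vA p N x = ∑ j ∈ Finset.range N, if 2 * (j : ℤ) + p = x then 1 / (N : ℝ) else 0 := by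
  unfold vA
  rw [Finsupp.finsetSum_apply]
  exact Finset.sum_congr rfl fun j _ => Finsupp.single_apply

theorem vA_nonneg (p : ℤ) (N : ℕ) (x : ℤ) : 0 ≤ vA p N x := by
  rw [vA_apply]
  refine Finset.sum_nonneg fun j _ => ?_
  split_ifs
  · positivity
  · exact le_rfl

theorem vA_le (p : ℤ) (N : ℕ) (x : ℤ) : vA p N x ≤ 1 / (N : ℝ) := by
  rw [vA_apply]
  by_cases h : ∃ j ∈ Finset.range N, 2 * (j : ℤ) + p = x
  · obtain ⟨j, hj, hx⟩ := h
    rw [Finset.sum_eq_single j]
    · rw [if_pos hx]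
    · intro i _ hi
      rw [if_neg]
      intro h
      apply hi
      omega
    · intro h
      exact absurd hj h
  · push Not at h
    rw [Finset.sum_eq_zero]
    · positivity
    · intro j hj
      rw [if_neg (h j hj)]

theorem vA_val (p : ℤ) {N i : ℕ} (hi : i < N) : vA p N (2 * (i : ℤ) + p) = 1 / (N : ℝ) := by
  rw [vA_apply, Finset.sum_eq_single i]
  · rw [if_pos rfl]
  · intro j _ hj
    rw [if_neg]
    intro h
    apply hj
    omega
  · intro h
    exact absurd (Finset.mem_range.2 hi) h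

/-! ### The sum of squares -/

/-- the sum of squares -/
def SS (v : ℤ →₀ ℝ) : ℝ := ∑ j ∈ v.support, v j * v j

theorem SS_set (v : ℤ →₀ ℝ) (F : Finset ℤ) (hF : v.support ⊆ F) : SS v = ∑ j ∈ F, v j * v j :=
  LC_set (fun j => v j) v F hF

theorem SS_vA (p : ℤ) {N : ℕ} (hN : 1 ≤ N) : SS (vA p N) = 1 / (N : ℝ) := by
  have h1 : SS (vA p N) = LC (fun j => vA p N j) (vA p N) := rfl
  rw [h1, LC_vA]
  have h2 : ∀ j ∈ Finset.range N, (1 / (N : ℝ)) • vA p N (2 * (j : ℤ) + p) =
      1 / (N : ℝ) * (1 / (N : ℝ)) := fun j hj => by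
    rw [vA_val p (Finset.mem_range.1 hj), smul_eq_mul]
  rw [Finset.sum_congr rfl h2, Finset.sum_const, Finset.card_range, nsmul_eq_mul]
  have h3 : (N : ℝ) ≠ 0 := by
    have : N ≠ 0 := by omega
    exact_mod_cast this
  field_simp

theorem SS_sub (v w : ℤ →₀ ℝ) : SS (v - w) ≤ 2 * SS v + 2 * SS w := by
  classical
  have h0 : (v - w).support ⊆ v.support ∪ w.support := Finsupp.support_sub
  rw [SS_set (v - w) _ h0, SS_set v _ Finset.subset_union_left,
    SS_set w _ (Finset.subset_union_right (s₁ := v.support)), Finset.mul_sum, Finset.mul_sum,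
    ← Finset.sum_add_distrib]
  refine Finset.sum_le_sum fun j _ => ?_
  rw [Finsupp.sub_apply]
  nlinarith [sq_nonneg (v j + w j)]

theorem KV_eq (v : ℤ →₀ ℝ) (l : ℤ) : KV v l = SS v + LC (fun j => v (2 * l - j)) v := by
  unfold KV SS
  rw [LC_apply, ← Finset.sum_add_distrib]
  refine Finset.sum_congr rfl fun j _ => ?_
  rw [smul_eq_mul]
  ring

theorem KV_zero_le (v : ℤ →₀ ℝ) : KV v 0 ≤ 2 * SS v := by
  classical
  rw [KV_eq]
  set F : Finset ℤ := v.support ∪ v.support.image (fun j => -j) with hF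
  have h0 : v.support ⊆ F := Finset.subset_union_left
  rw [LC_set _ v F h0, SS_set v F h0]
  have h1 : ∑ j ∈ F, v (-j) * v (-j) = ∑ j ∈ F, v j * v j := by
    refine Finset.sum_nbij (fun j => -j) ?_ ?_ ?_ ?_
    · intro j hj
      rw [hF, Finset.mem_union, Finset.mem_image] at hj ⊢
      rcases hj with hj | ⟨i, hi, rfl⟩
      · exact Or.inr ⟨j, hj, rfl⟩
      · rw [neg_neg]
        exact Or.inl hi
    · intro i _ j _ hij
      simpa using hij
    · intro j hj
      have hj' : j ∈ F := hj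
      refine ⟨-j, ?_, neg_neg j⟩
      change -j ∈ F
      rw [hF, Finset.mem_union, Finset.mem_image] at hj' ⊢
      rcases hj' with hj | ⟨i, hi, rfl⟩
      · exact Or.inr ⟨j, hj, rfl⟩
      · rw [neg_neg]
        exact Or.inl hi
    · intro j _
      rfl
  have h2 : ∑ j ∈ F, v j • v (2 * 0 - j) ≤ ∑ j ∈ F, (v j * v j + v (-j) * v (-j)) / 2 := by
    refine Finset.sum_le_sum fun j _ => ?_
    have e : (2 * 0 - j : ℤ) = -j := by ring
    rw [e, smul_eq_mul]
    nlinarith [sq_nonneg (v j - v (-j))]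
  have h3 : ∑ j ∈ F, (v j * v j + v (-j) * v (-j)) / 2 = ∑ j ∈ F, v j * v j := by
    rw [← Finset.sum_div, Finset.sum_add_distrib, h1]
    ring
  rw [h3] at h2
  have h4 : ∑ j ∈ F, v j * v j + ∑ j ∈ F, v j • v (2 * 0 - j) ≤
      ∑ j ∈ F, v j * v j + ∑ j ∈ F, v j * v j := by gcongr
  refine h4.trans (le_of_eq ?_)
  ring

/-! ### Balance -/

theorem Bal_iff (v : ℤ →₀ ℝ) : Bal v ↔ LC (fun _ => (1 : ℝ)) v = 0 ∧
    LC (fun j => (-1 : ℝ) ^ j.natAbs) v = 0 := by
  unfold Bal
  rw [LC_apply, LC_apply]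
  simp only [smul_eq_mul, mul_one]
  have e : ∑ j ∈ v.support, (-1 : ℝ) ^ j.natAbs * v j = ∑ j ∈ v.support,
      v j * (-1 : ℝ) ^ j.natAbs := Finset.sum_congr rfl fun j _ => mul_comm _ _
  rw [e]

theorem sgn_add (R : Type) [Ring R] (j : ℕ) (p : ℤ) :
    (-1 : R) ^ (2 * (j : ℤ) + p).natAbs = (-1) ^ p.natAbs := by
  have h : Even (2 * (j : ℤ) + p) ↔ Even p := by
    rw [Int.even_add]
    simp
  rcases Int.even_or_odd p with hp | hp
  · rw [(Int.natAbs_even.2 (h.2 hp)).neg_one_pow, (Int.natAbs_even.2 hp).neg_one_pow]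
  · have h2 : Odd (2 * (j : ℤ) + p) := by
      rw [← Int.not_even_iff_odd, h, Int.not_even_iff_odd]
      exact hp
    rw [(Int.natAbs_odd.2 h2).neg_one_pow, (Int.natAbs_odd.2 hp).neg_one_pow]

theorem one_vA (p : ℤ) {N : ℕ} (hN : 1 ≤ N) : LC (fun _ => (1 : ℝ)) (vA p N) = 1 := by
  rw [LC_vA, Finset.sum_const, Finset.card_range, nsmul_eq_mul]
  have h3 : (N : ℝ) ≠ 0 := by
    have : N ≠ 0 := by omega
    exact_mod_cast this
  rw [smul_eq_mul]
  field_simp

theorem sgn_vA (p : ℤ) {N : ℕ} (hN : 1 ≤ N) :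
    LC (fun j => (-1 : ℝ) ^ j.natAbs) (vA p N) = (-1) ^ p.natAbs := by
  rw [LC_vA]
  simp only [sgn_add]
  rw [Finset.sum_const, Finset.card_range, nsmul_eq_mul]
  have h3 : (N : ℝ) ≠ 0 := by
    have : N ≠ 0 := by omega
    exact_mod_cast this
  rw [smul_eq_mul]
  field_simp

theorem QV_eq (v : ℤ →₀ ℝ) (l : ℤ) (h : ℝ) (u : ℂ → ℝ) (z : ℂ) :
    QV v l h u z = LC (fun j => W h u j z * W h u (2 * l - j) z) v := by
  unfold QV
  rw [LC_apply]
  exact Finset.sum_congr rfl fun j _ => (Complex.real_smul).symm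

theorem mulconj (f : MW) (a : ℤ) (z : ℂ) :
    W 1 f a z * W 1 f (-a) z = (-1) ^ a.natAbs * ((‖W 1 f a z‖ ^ 2 : ℝ) : ℂ) := by
  have h1 := conj_W f a z
  have h2 : ((‖W 1 f a z‖ ^ 2 : ℝ) : ℂ) = W 1 f a z * (starRingEnd ℂ) (W 1 f a z) := by
    rw [Complex.mul_conj, Complex.normSq_eq_norm_sq]
  rw [h2, h1]
  have h3 : ((-1 : ℂ) ^ a.natAbs) * (-1) ^ a.natAbs = 1 := by
    rw [← mul_pow, neg_one_mul, neg_neg, one_pow]
  linear_combination (-(W 1 f a z * W 1 f (-a) z)) * h3

theorem QV_vA (p : ℤ) (N : ℕ) (f : MW) (z : ℂ) :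
    QV (vA p N) 0 1 f z = (-1) ^ p.natAbs * ((AV p N f z : ℝ) : ℂ) := by
  rw [QV_eq, LC_vA]
  unfold AV
  rw [Complex.ofReal_mul, Complex.ofReal_sum, Finset.mul_sum, Finset.mul_sum]
  refine Finset.sum_congr rfl fun j _ => ?_
  have e : (2 * 0 - (2 * (j : ℤ) + p) : ℤ) = -(2 * (j : ℤ) + p) := by ring
  rw [e, mulconj, sgn_add, Complex.real_smul]
  ring

theorem GN : S_GN := by
  refine ⟨fun N hN => ?_, fun p N M hN hM => ⟨?_, ?_, ?_⟩⟩
  · have hN0 : (N : ℝ) ≠ 0 := by
      have : N ≠ 0 := by omega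
      exact_mod_cast this
    have hNpos : (0 : ℝ) < N := by
      have : 0 < N := by omega
      exact_mod_cast this
    have hQ : ∀ (l : ℤ) (h : ℝ) (u : ℂ → ℝ) (z : ℂ),
        QV (Finsupp.single 0 1 - vA 0 N) l h u z = QQ h u N l z := by
      intro l h u z
      rw [QV_eq, map_sub, LC_single, LC_vA, one_smul]
      unfold QQ
      rw [Finset.mul_sum]
      have e0 : (2 * l - 0 : ℤ) = 2 * l := by ring
      rw [e0]
      congr 1
      refine Finset.sum_congr rfl fun j _ => ?_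
      rw [Complex.real_smul, add_zero]
      push_cast
      rfl
    refine ⟨?_, ?_, hQ⟩
    · rw [Bal_iff]
      constructor
      · rw [map_sub, LC_single, one_vA 0 hN, smul_eq_mul, mul_one, sub_self]
      · rw [map_sub, LC_single, sgn_vA 0 hN, smul_eq_mul, one_mul, sub_self]
    · intro l
      -- the sum of squares
      have hSS : SS (Finsupp.single 0 1 - vA 0 N) = 1 - 1 / (N : ℝ) := by
        have h1 : SS (Finsupp.single 0 1 - vA 0 N) =
            LC (fun j => (Finsupp.single (0 : ℤ) (1 : ℝ) - vA 0 N) j)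
              (Finsupp.single 0 1 - vA 0 N) := rfl
        rw [h1, map_sub, LC_single, LC_vA, one_smul]
        have h2 : ∀ j ∈ Finset.range N, (1 / (N : ℝ)) •
            (Finsupp.single (0 : ℤ) (1 : ℝ) - vA 0 N) (2 * (j : ℤ) + 0) =
            1 / (N : ℝ) * (if j = 0 then 1 else 0) - 1 / (N : ℝ) * (1 / (N : ℝ)) := by
          intro j hj
          rw [Finsupp.sub_apply, vA_val 0 (Finset.mem_range.1 hj), smul_eq_mul, mul_sub,
            Finsupp.single_apply]
          congr 2
          by_cases hj0 : j = 0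
          · rw [if_pos hj0, if_pos (by rw [hj0]; norm_num)]
          · rw [if_neg hj0, if_neg]
            omega
        rw [Finset.sum_congr rfl h2, Finset.sum_sub_distrib, Finset.sum_const, Finset.card_range,
          nsmul_eq_mul, ← Finset.mul_sum, Finset.sum_ite_eq' (Finset.range N) 0,
          if_pos (Finset.mem_range.2 (by omega)), Finsupp.sub_apply, Finsupp.single_eq_same]
        have h3 : vA 0 N 0 = 1 / (N : ℝ) := by
          have := vA_val 0 (N := N) (i := 0) (by omega)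
          simpa using this
        rw [h3]
        field_simp
        ring
      by_cases hl : l = 0
      · subst hl
        rw [if_pos rfl]
        refine (KV_zero_le _).trans ?_
        rw [hSS]
        have : 0 < 1 / (N : ℝ) := by positivity
        linarith
      · rw [if_neg hl, KV_eq, hSS, map_sub, LC_single, LC_vA, one_smul]
        have h1 : (Finsupp.single (0 : ℤ) (1 : ℝ) - vA 0 N) (2 * l - 0) ≤ 0 := by
          rw [Finsupp.sub_apply, Finsupp.single_apply, if_neg (by omega)]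
          have := vA_nonneg 0 N (2 * l - 0)
          linarith
        have h2 : -(1 / (N : ℝ)) ≤ ∑ j ∈ Finset.range N, (1 / (N : ℝ)) •
            (Finsupp.single (0 : ℤ) (1 : ℝ) - vA 0 N) (2 * l - (2 * (j : ℤ) + 0)) := by
          have h3 : ∑ _j ∈ Finset.range N, -(1 / (N : ℝ) * (1 / (N : ℝ))) = -(1 / (N : ℝ)) := by
            rw [Finset.sum_const, Finset.card_range, nsmul_eq_mul]
            field_simp
          rw [← h3]
          refine Finset.sum_le_sum fun j _ => ?_
          rw [smul_eq_mul, Finsupp.sub_apply, ← mul_neg]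
          apply mul_le_mul_of_nonneg_left _ (by positivity)
          have h4 := vA_le 0 N (2 * l - (2 * (j : ℤ) + 0))
          have h5 : (0 : ℝ) ≤ Finsupp.single (0 : ℤ) (1 : ℝ) (2 * l - (2 * (j : ℤ) + 0)) := by
            rw [Finsupp.single_apply]
            split_ifs <;> norm_num
          linarith
        linarith
  · rw [Bal_iff]
    constructor
    · rw [map_sub, one_vA p hN, one_vA p hM, sub_self]
    · rw [map_sub, sgn_vA p hN, sgn_vA p hM, sub_self]
  · refine (KV_zero_le _).trans ?_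
    have h1 := SS_sub (vA p N) (vA p M)
    rw [SS_vA p hN, SS_vA p hM] at h1
    linarith
  · intro f z
    have h1 : QV (vA p N - vA p M) 0 1 f z = QV (vA p N) 0 1 f z - QV (vA p M) 0 1 f z := by
      rw [QV_eq, QV_eq, QV_eq, map_sub]
    rw [h1, QV_vA, QV_vA, ← mul_sub, norm_mul, norm_pow, norm_neg, norm_one, one_pow, one_mul,
      ← Complex.ofReal_sub, Complex.norm_real, Real.norm_eq_abs]

end

end Pool.Agent.N507.BRGN
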