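import Pool.Agent.N502.FR.Stm

set_option autoImplicit false

/-!
# The race formula for completions of linear extensions of a rooted forest
-/

open Finset

namespace Pool.Agent.N507.FR_NNK

open Pool.Agent.N502.FR
open Pool.Agent.H13R3.WB (IsLow)

variable {P : Type} [Fintype P] [PartialOrder P]

open Classical in
theorem ee_succ (m : ℕ) (J : Finset P) : EE (m + 1) J =
    ∑ p ∈ univ.filter (fun p : P => p ∉ J ∧ IsLow (insert p J)), EE m (insert p J) := by
  unfold EE
  rw [Pool.Agent.H13R3.WB.D]

open Classical in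
theorem nn_succ (x y : P) (m : ℕ) (J : Finset P) : NN x y (m + 1) J =
    ∑ p ∈ univ.filter (fun p : P => p ∉ J ∧ IsLow (insert p J)),
      if (y ∈ insert p J → x ∈ insert p J) then NN x y m (insert p J) else 0 := by
  unfold NN
  rw [Pool.Agent.H13R3.WB.D, ← Finset.sum_filter, Finset.filter_filter]
  refine Finset.sum_congr ?_ fun p _ => rfl
  ext p
  simp only [Finset.mem_filter, Finset.mem_univ, true_and]
  tauto

open Classical in
theorem nn_of_mem (x y : P) (m : ℕ) : ∀ J : Finset P, x ∈ J → NN x y m J = EE m J := by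
  induction m with
  | zero => intro J _; rfl
  | succ m ih =>
    intro J hJ
    rw [nn_succ, ee_succ]
    refine Finset.sum_congr rfl fun p _ => ?_
    rw [if_pos fun _ => mem_insert_of_mem hJ, ih _ (mem_insert_of_mem hJ)]

theorem hk_pos (u : P) : 1 ≤ hk u := by
  classical
  unfold hk
  exact Finset.card_pos.2 ⟨u, by simp⟩

theorem hk_lt {u v : P} (h : u < v) : hk v < hk u := by
  classical
  unfold hk
  refine Finset.card_lt_card ?_
  rw [Finset.ssubset_iff_of_subset]
  · exact ⟨u, by simp, by simpa using h.not_ge⟩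
  · intro z hz
    simp only [mem_filter, mem_univ, true_and] at hz ⊢
    exact h.le.trans hz

theorem mem_un {J : Finset P} {x y : P} {n : ℕ} :
    n ∈ un J x y ↔ ∃ u, u ∉ J ∧ u ≤ x ∧ ¬ u ≤ y ∧ hk u = n := by
  classical
  unfold un
  simp only [mem_image, mem_filter, mem_univ, true_and, and_assoc]

theorem un_pos (J : Finset P) (x y : P) : Pos (un J x y) := by
  intro n hn
  obtain ⟨u, -, -, -, rfl⟩ := mem_un.1 hn
  exact hk_pos u

theorem un_ne {J : Finset P} {x y : P} (hx : x ∉ J) (h : ¬ x ≤ y) : (un J x y).Nonempty :=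
  ⟨hk x, mem_un.2 ⟨x, hx, le_rfl, h, rfl⟩⟩

open Classical in
/-- the elements that may be added to `J` -/
noncomputable def S (J : Finset P) : Finset P :=
  univ.filter (fun p : P => p ∉ J ∧ IsLow (insert p J))

open Classical in
theorem mem_S {J : Finset P} {p : P} : p ∈ S J ↔ p ∉ J ∧ IsLow (insert p J) := by
  unfold S
  simp

open Classical in
theorem un_self {J : Finset P} {x y : P} (h : IsLow (insert x J)) : un (insert x J) x y = ∅ := by
  rw [Finset.eq_empty_iff_forall_notMem]
  intro n hn
  obtain ⟨u, h1, h2, -, -⟩ := mem_un.1 hn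
  exact h1 (h x (mem_insert_self _ _) u h2)

open Classical in
theorem un_same {J : Finset P} {p x y : P} (h : ¬ p ≤ x ∨ p ≤ y) :
    un (insert p J) x y = un J x y := by
  ext n
  rw [mem_un, mem_un]
  constructor
  · rintro ⟨u, h1, h2⟩
    exact ⟨u, fun h' => h1 (mem_insert_of_mem h'), h2⟩
  · rintro ⟨u, h1, h2, h3, h4⟩
    refine ⟨u, fun h' => ?_, h2, h3, h4⟩
    rcases mem_insert.1 h' with rfl | h'
    · rcases h with h | h
      · exact h h2
      · exact h3 h
    · exact h1 h'

open Classical in
theorem uniq (hD : DFor P) {J : Finset P} {x p p' : P} (hp : p ∈ S J) (hp' : p' ∈ S J)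
    (h : p ≤ x) (h' : p' ≤ x) : p = p' := by
  rw [mem_S] at hp hp'
  rcases hD x p p' h h' with h1 | h1
  · rcases mem_insert.1 (hp'.2 p' (mem_insert_self _ _) p h1) with h2 | h2
    · exact h2
    · exact absurd h2 hp.1
  · rcases mem_insert.1 (hp.2 p (mem_insert_self _ _) p' h1) with h2 | h2
    · exact h2.symm
    · exact absurd h2 hp'.1

open Classical in
theorem exist {J : Finset P} (hJ : IsLow J) {x : P} (hx : x ∉ J) : ∃ p ∈ S J, p ≤ x := by
  have hne : (univ.filter (fun u : P => u ∉ J ∧ u ≤ x)).Nonempty := ⟨x, by simp [hx]⟩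
  obtain ⟨p, hp⟩ := Finset.exists_minimal hne
  have h1 := hp.1
  simp only [mem_filter, mem_univ, true_and] at h1
  refine ⟨p, mem_S.2 ⟨h1.1, fun q hq r hr => ?_⟩, h1.2⟩
  rcases mem_insert.1 hq with rfl | hq
  · by_cases hrJ : r ∈ J
    · exact mem_insert_of_mem hrJ
    · have h2 : r ∈ univ.filter (fun u : P => u ∉ J ∧ u ≤ x) := by
        simp only [mem_filter, mem_univ, true_and]
        exact ⟨hrJ, hr.trans h1.2⟩
      have h3 := hp.2 h2 hr
      rw [le_antisymm hr h3]
      exact mem_insert_self _ _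
  · exact mem_insert_of_mem (hJ q hq r hr)

open Classical in
theorem un_erase (hD : DFor P) {J : Finset P} {p x y : P} (hp : p ∈ S J) (h : p ≤ x) :
    un (insert p J) x y = (un J x y).erase (hk p) := by
  have hp' := mem_S.1 hp
  ext n
  rw [mem_erase, mem_un, mem_un]
  constructor
  · rintro ⟨u, h1, h2, h3, rfl⟩
    have h4 : u ≠ p := fun e => h1 (by rw [e]; exact mem_insert_self _ _)
    refine ⟨?_, u, fun h' => h1 (mem_insert_of_mem h'), h2, h3, rfl⟩
    rcases hD x p u h h2 with h5 | h5
    · exact (hk_lt (lt_of_le_of_ne h5 h4.symm)).ne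
    · exact absurd (hp'.2 p (mem_insert_self _ _) u h5) h1
  · rintro ⟨h0, u, h1, h2, h3, rfl⟩
    refine ⟨u, fun h' => ?_, h2, h3, rfl⟩
    rcases mem_insert.1 h' with rfl | h'
    · exact h0 rfl
    · exact h1 h'

open Classical in
theorem ee_step (hO : S_HOO) (hM : S_MNS) (hD : DFor P) {m : ℕ} {J : Finset P} (hJ : IsLow J)
    (hc : J.card + (m + 1) = Fintype.card P) {p : P} (hp : p ∈ S J) :
    EE m (insert p J) * (m + 1) = hk p * EE (m + 1) J := by
  have hp' := mem_S.1 hp
  have h1 := hO hM P hD (m + 1) J hJ hc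
  have h2 := hO hM P hD m (insert p J) hp'.2 (by
    rw [card_insert_of_notMem hp'.1]
    omega)
  have h3 : ∏ v ∈ univ.filter (fun v : P => v ∉ J), hk v =
      hk p * ∏ v ∈ univ.filter (fun v : P => v ∉ insert p J), hk v := by
    have h4 : univ.filter (fun v : P => v ∉ J) =
        insert p (univ.filter (fun v : P => v ∉ insert p J)) := by
      ext v
      simp only [mem_filter, mem_univ, true_and, mem_insert, not_or]
      by_cases hv : v = p
      · subst hv
        simp [hp'.1]
      · simp [hv]
    rw [h4, prod_insert (by simp)]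
  have h5 : 0 < ∏ v ∈ univ.filter (fun v : P => v ∉ insert p J), hk v :=
    prod_pos fun v _ => hk_pos v
  rw [h3, Nat.factorial_succ, ← h2] at h1
  refine Nat.eq_of_mul_eq_mul_right h5 ?_
  nlinarith [h1]

open Classical in
theorem key (hM : S_MNS) {K : Finset ℕ → Finset ℕ → ℝ} (hK : Race K) (hD : DFor P) {x y : P}
    {m : ℕ} {J : Finset P} (hJ : IsLow J)
    (hc : J.card + m = Fintype.card P) (hx : x ∉ J) (hy : y ∉ J) :
    ∑ p ∈ S J, (hk p : ℝ) * K (un (insert p J) x y) (un (insert p J) y x) =
      m * K (un J x y) (un J y x) := by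
  have hm : ∑ p ∈ S J, (hk p : ℝ) = m := by
    have := hM P hD m J hJ hc
    rw [← this, Nat.cast_sum]
    refine Finset.sum_congr ?_ fun _ _ => rfl
    ext p
    rw [mem_S]
    simp
  rw [← hm, Finset.sum_mul, ← sub_eq_zero, ← Finset.sum_sub_distrib]
  obtain ⟨p, hp, hpx⟩ := exist hJ hx
  obtain ⟨q, hq, hqy⟩ := exist hJ hy
  by_cases hpq : p = q
  · subst hpq
    refine Finset.sum_eq_zero fun r hr => ?_
    have h1 : ¬ r ≤ x ∨ r ≤ y := by
      by_cases h : r ≤ x
      · right
        rw [uniq hD hr hp h hpx]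
        exact hqy
      · exact Or.inl h
    have h2 : ¬ r ≤ y ∨ r ≤ x := by
      by_cases h : r ≤ y
      · right
        rw [uniq hD hr hp h hqy]
        exact hpx
      · exact Or.inl h
    rw [un_same h1, un_same h2, sub_self]
  · have hpy : ¬ p ≤ y := fun h => hpq (uniq hD hp hq h hqy)
    have hqx : ¬ q ≤ x := fun h => hpq (uniq hD hp hq hpx h)
    rw [Finset.sum_eq_add_of_mem p q hp hq hpq]
    · rw [un_erase hD hp hpx, un_same (Or.inl hpy), un_same (Or.inl hqx), un_erase hD hq hqy]
      have h := hK.step (un J x y) (un J y x) (hk p) (hk q) (un_pos _ _ _) (un_pos _ _ _)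
        (mem_un.2 ⟨p, (mem_S.1 hp).1, hpx, hpy, rfl⟩) (mem_un.2 ⟨q, (mem_S.1 hq).1, hqy, hqx, rfl⟩)
      linarith
    · rintro r hr ⟨h1, h2⟩
      have h3 : ¬ r ≤ x := fun h => h1 (uniq hD hr hp h hpx)
      have h4 : ¬ r ≤ y := fun h => h2 (uniq hD hr hq h hqy)
      rw [un_same (Or.inl h3), un_same (Or.inl h4), sub_self]

theorem main : Pool.Agent.N502.FR.S_NNK := by
  classical
  intro hM hO K hK P _ _ hD x y hxy hyx m
  have hne : x ≠ y := fun e => hxy (by rw [e])
  induction m with
  | zero =>
    intro J hJ hc hx hy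
    have : J = univ := Finset.card_eq_iff_eq_univ J |>.1 (by simpa using hc)
    rw [this] at hx
    exact absurd (mem_univ x) hx
  | succ m ih =>
    intro J hJ hc hx hy
    have h1 : (NN x y (m + 1) J : ℝ) = ∑ p ∈ S J, (EE m (insert p J) : ℝ) *
        K (un (insert p J) x y) (un (insert p J) y x) := by
      have h2 : NN x y (m + 1) J = ∑ p ∈ S J,
          if (y ∈ insert p J → x ∈ insert p J) then NN x y m (insert p J) else 0 := by
        rw [nn_succ]
        refine Finset.sum_congr ?_ fun p _ => ?_
        · ext p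
          rw [mem_S]
          simp
        · congr
      rw [h2, Nat.cast_sum]
      refine Finset.sum_congr rfl fun p hp => ?_
      have hp' := mem_S.1 hp
      by_cases e1 : p = y
      · subst e1
        have h3 : x ∉ insert p J := by
          rw [mem_insert, not_or]
          exact ⟨hne, hx⟩
        rw [if_neg (fun h => h3 (h (mem_insert_self _ _))), un_self hp'.2,
          hK.left _ (un_pos _ _ _) (un_ne h3 hxy)]
        simp
      · have h4 : y ∉ insert p J := by
          rw [mem_insert, not_or]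
          exact ⟨fun e => e1 e.symm, hy⟩
        rw [if_pos fun h => absurd h h4]
        by_cases e2 : p = x
        · subst e2
          rw [un_self hp'.2, hK.right _ (un_pos _ _ _) (un_ne h4 hyx), mul_one,
            nn_of_mem _ _ _ _ (mem_insert_self _ _)]
        · have h5 : x ∉ insert p J := by
            rw [mem_insert, not_or]
            exact ⟨fun e => e2 e.symm, hx⟩
          exact ih (insert p J) hp'.2 (by
            rw [card_insert_of_notMem hp'.1]
            omega) h5 h4
    have h6 := key hM hK hD hJ hc hx hy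
    have h7 : (0 : ℝ) < (m : ℝ) + 1 := by positivity
    have h8 : ((m : ℝ) + 1) * (NN x y (m + 1) J : ℝ) =
        EE (m + 1) J * ∑ p ∈ S J, (hk p : ℝ) * K (un (insert p J) x y) (un (insert p J) y x) := by
      rw [h1, Finset.mul_sum, Finset.mul_sum]
      refine Finset.sum_congr rfl fun p hp => ?_
      have h9 := ee_step hO hM hD hJ hc hp
      have h10 : (EE m (insert p J) : ℝ) * (m + 1) = hk p * EE (m + 1) J := by exact_mod_cast h9
      calc ((m : ℝ) + 1) * ((EE m (insert p J) : ℝ) * K (un (insert p J) x y) (un (insert p J) y x))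
          = (EE m (insert p J) : ℝ) * (m + 1) * K (un (insert p J) x y) (un (insert p J) y x) := by
            ring
        _ = _ := by rw [h10]; ring
    rw [h6] at h8
    push_cast at h8
    have h11 : ((m : ℝ) + 1) * (NN x y (m + 1) J : ℝ) =
        ((m : ℝ) + 1) * (EE (m + 1) J * K (un J x y) (un J y x)) := by
      rw [h8]
      ring
    exact mul_left_cancel₀ h7.ne' h11

end Pool.Agent.N507.FR_NNK
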