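import Mathlib
import Pool.Agent.N988.EA.Stm5
import Pool.Agent.N665.EA_PHLAY

/-!
# Edwards-Anderson on hierarchical lattices (helper988): contraction of the tails (helper507)
-/

open MeasureTheory Set Filter
open scoped ENNReal Topology

namespace Pool.Agent.N507.EA

open Pool.Agent.N988.EA

noncomputable section

theorem cosh_add_le (x y : ℝ) : Real.cosh (x + y) ≤ Real.exp |y| * Real.cosh x := by
  rw [Real.cosh_eq, Real.cosh_eq]
  have h1 : Real.exp (x + y) ≤ Real.exp |y| * Real.exp x := by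
    rw [← Real.exp_add]
    apply Real.exp_le_exp.2
    linarith [le_abs_self y]
  have h2 : Real.exp (-(x + y)) ≤ Real.exp |y| * Real.exp (-x) := by
    rw [← Real.exp_add]
    apply Real.exp_le_exp.2
    linarith [neg_abs_le y]
  linarith

theorem ph_le (a b : ℝ) : ph a b ≤ |a| := by
  unfold ph
  have h1 : Real.cosh (a + b) ≤ Real.exp (2 * |a|) * Real.cosh (a - b) := by
    have h2 := cosh_add_le (b - a) (2 * a)
    have e1 : b - a + 2 * a = a + b := by ring
    have e2 : |2 * a| = 2 * |a| := by rw [abs_mul, abs_two]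
    have e3 : Real.cosh (b - a) = Real.cosh (a - b) := by
      rw [← Real.cosh_neg]; congr 1; ring
    rwa [e1, e2, e3] at h2
  have h3 : Real.cosh (a + b) / Real.cosh (a - b) ≤ Real.exp (2 * |a|) :=
    (div_le_iff₀ (Real.cosh_pos _)).2 h1
  have h4 := Real.log_le_log (div_pos (Real.cosh_pos _) (Real.cosh_pos _)) h3
  rw [Real.log_exp] at h4
  linarith

theorem abs_ph_le' (a b : ℝ) : |ph a b| ≤ |a| := by
  rw [abs_le]
  refine ⟨?_, ph_le a b⟩
  have := ph_le a (-b)
  rw [Pool.Agent.N665.EA.ph_neg_right] at this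
  linarith

theorem abs_ph_le (a b : ℝ) : |ph a b| ≤ |a| ∧ |ph a b| ≤ |b| := by
  refine ⟨abs_ph_le' a b, ?_⟩
  rw [← Pool.Agent.N665.EA.ph_symm]
  exact abs_ph_le' b a

theorem meas_ph : Measurable fun p : ℝ × ℝ => ph p.1 p.2 :=
  Pool.Agent.N665.EA.ph_cont.measurable

theorem prob_br (ν : Measure ℝ) [IsProbabilityMeasure ν] : IsProbabilityMeasure (br ν) := by
  unfold br
  exact Measure.isProbabilityMeasure_map meas_ph.aemeasurable

theorem lawstep_two (ν : Measure ℝ) [IsProbabilityMeasure ν] :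
    lawstep 2 ν = ((br ν).prod (br ν)).map fun p => p.1 + p.2 := by
  haveI := prob_br ν
  have h := (measurePreserving_finTwoArrow (br ν)).map_eq
  rw [← h, Measure.map_map (by fun_prop) (MeasurableEquiv.measurable _)]
  unfold lawstep
  congr 1
  funext y
  rw [Fin.sum_univ_two]
  rfl

theorem meas_tail (t : ℝ) : MeasurableSet {x : ℝ | t < |x|} :=
  measurableSet_lt measurable_const measurable_id.abs

theorem br_tail (ν : Measure ℝ) [IsProbabilityMeasure ν] (t : ℝ) :
    br ν {x | t < |x|} ≤ ν {x | t < |x|} ^ 2 := by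
  unfold br
  rw [Measure.map_apply meas_ph (meas_tail t), pow_two, ← Measure.prod_prod]
  refine measure_mono fun p hp => ?_
  have hp' : t < |ph p.1 p.2| := hp
  exact ⟨lt_of_lt_of_le hp' (abs_ph_le _ _).1, lt_of_lt_of_le hp' (abs_ph_le _ _).2⟩

theorem uni_scale (ρ : Measure ℝ) (h : Uni ρ) (u : ℝ) (hu : 0 < u) :
    Uni (ρ.map fun x => u * x) := by
  obtain ⟨f, hf, he, ha, rfl⟩ := h
  have hm : Measurable fun x : ℝ => u⁻¹ * x := by fun_prop
  refine ⟨fun x => ENNReal.ofReal u⁻¹ * f (u⁻¹ * x), (hf.comp hm).const_mul _, ?_, ?_, ?_⟩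
  · intro x
    beta_reduce
    rw [mul_neg, he]
  · intro x hx y hy hxy
    have hu' : 0 < u⁻¹ := inv_pos.2 hu
    refine mul_le_mul_right ?_ _
    exact ha (mul_pos hu' hx) (mul_pos hu' hy) (mul_le_mul_of_nonneg_left hxy hu'.le)
  · ext s hs
    have hmu : Measurable fun x : ℝ => u * x := by fun_prop
    rw [Measure.map_apply hmu hs, withDensity_apply _ (hmu hs), withDensity_apply _ hs]
    have h1 := Real.map_volume_mul_left hu.ne'
    have h2 : ∫⁻ y, s.indicator (fun y => f (u⁻¹ * y)) y ∂(Measure.map (u * ·) volume) =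
        ∫⁻ x, s.indicator (fun y => f (u⁻¹ * y)) (u * x) :=
      lintegral_map ((hf.comp hm).indicator hs) hmu
    rw [h1, lintegral_smul_measure, lintegral_indicator hs] at h2
    rw [lintegral_const_mul' _ _ ENNReal.ofReal_ne_top, ← lintegral_indicator (hmu hs)]
    rw [abs_of_pos (inv_pos.2 hu), smul_eq_mul] at h2
    rw [h2]
    congr 1
    funext x
    by_cases hx : u * x ∈ s
    · rw [indicator_of_mem (show x ∈ (fun x : ℝ => u * x) ⁻¹' s from hx), indicator_of_mem hx,
        ← mul_assoc, inv_mul_cancel₀ hu.ne', one_mul]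
    · rw [indicator_of_notMem (show x ∉ (fun x : ℝ => u * x) ⁻¹' s from hx),
        indicator_of_notMem hx]

/-- Contraction of the tails. -/
theorem t_CON (h0 : S_SUM) (h1 : S_CMP) (h2 : S_BR) (h3 : S_REF) : S_CON := by
  intro ν hν hU u hu htail
  haveI := prob_br ν
  have hUb : Uni (br ν) := h2 ν hν hU
  rw [lawstep_two]
  refine ⟨h0 _ _ inferInstance inferInstance hUb hUb, fun t ht => ?_⟩
  obtain ⟨ρ, hρ, hρU, hρt, hρs⟩ := h3
  have hmu : Measurable fun x : ℝ => u * x := by fun_prop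
  obtain ⟨ρ', hρ'⟩ : ∃ ρ', ρ' = ρ.map fun x => u * x := ⟨_, rfl⟩
  haveI hρ'p : IsProbabilityMeasure ρ' := by
    rw [hρ']
    exact Measure.isProbabilityMeasure_map hmu.aemeasurable
  have hlt : ∀ t x : ℝ, t < |u * x| ↔ t / u < |x| := by
    intro t x
    rw [abs_mul, abs_of_pos hu, div_lt_iff₀ hu, mul_comm]
  have htails : ∀ t : ℝ, 0 ≤ t → br ν {x | t < |x|} ≤ ρ' {x | t < |x|} := by
    intro t ht
    have htu : 0 ≤ t / u := div_nonneg ht hu.le
    have e1 : ρ' {x | t < |x|} = ENNReal.ofReal (Ht (t / u) ^ 2) := by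
      rw [hρ', Measure.map_apply hmu (meas_tail t), ← hρt (t / u) htu]
      congr 1
      ext x
      exact hlt t x
    have hH : 0 ≤ Ht (t / u) := by
      unfold Ht
      positivity
    rw [e1, ENNReal.ofReal_pow hH]
    exact (br_tail ν t).trans (pow_le_pow_left' (htail t ht) 2)
  have hcmp := h1 (br ν) (br ν) ρ' ρ' inferInstance inferInstance hρ'p hρ'p hUb
    (by rw [hρ']; exact uni_scale ρ hρU u hu) htails htails t ht
  have hadd : Measurable fun p : ℝ × ℝ => p.1 + p.2 := by fun_prop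
  rw [Measure.map_apply hadd (meas_tail t)]
  refine hcmp.trans ?_
  have e2 : (ρ'.prod ρ') {p | t < |p.1 + p.2|} = (ρ.prod ρ) {p | t / u < |p.1 + p.2|} := by
    have hms : MeasurableSet {p : ℝ × ℝ | t < |p.1 + p.2|} := hadd (meas_tail t)
    rw [hρ', Measure.map_prod_map _ _ hmu hmu, Measure.map_apply (hmu.prodMap hmu) hms]
    congr 1
    ext p
    show t < |u * p.1 + u * p.2| ↔ t / u < |p.1 + p.2|
    rw [← mul_add]
    exact hlt t _
  rw [e2]
  exact hρs (t / u) (div_nonneg ht hu.le)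

end

end Pool.Agent.N507.EA
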