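import Pool.Agent.N841.LZ.Stm

/-!
# Project LZ (helper841), leaf MIX (helper507)
-/

set_option autoImplicit false

open Cardinal Set Filter MeasureTheory

namespace Pool.Agent.N507.LZMIX

open Pool.Agent.N841.LZ

lemma iic_countable (a : Om) : (Iic a).Countable := by
  have h1 : #(Iio a) < ℵ₁ := Cardinal.mk_Iio_toType_ord_lt a
  have h2 : (Iio a).Countable := by
    rw [← Cardinal.le_aleph0_iff_set_countable]
    rw [← Order.lt_succ_iff, Cardinal.succ_aleph0]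
    exact h1
  have h3 : Iic a = insert a (Iio a) := by
    ext x
    simp [le_iff_eq_or_lt]
  rw [h3]
  exact h2.insert a

lemma univ_uncountable : ¬ (univ : Set Om).Countable := by
  rw [← Cardinal.le_aleph0_iff_set_countable, Cardinal.mk_univ, Cardinal.mk_ord_toType, not_le]
  exact Cardinal.aleph0_lt_aleph_one

lemma bounded {Ξ : Set Om} (h : Ξ.Countable) : ∃ δ : Om, ∀ ξ ∈ Ξ, ξ < δ := by
  by_contra hcon
  push Not at hcon
  apply univ_uncountable
  refine (h.biUnion fun ξ _ => iic_countable ξ).mono ?_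
  intro δ _
  obtain ⟨ξ, hξ, h1⟩ := hcon δ
  exact mem_biUnion hξ h1

lemma const_case {e : Om → Om → ℕ} {S : Om → Set ℕ} (hfin : ∀ a k, {x | x < a ∧ e a x ≤ k}.Finite)
    (hcoh : ∀ a b, a < b → {x | x < a ∧ e a x ≠ e b x}.Finite) (hT : TailSplitting S)
    {Ξ : Set Om} (hΞ : Ξ.Infinite) (hc : Ξ.Countable) (c : Prop) :
    {α | ∀ ξ ∈ Ξ, ((ξ < α ∧ e α ξ ∈ S α) ↔ c)}.Countable := by
  obtain ⟨δ, hδ⟩ := bounded hc
  have hR : (e δ '' Ξ).Infinite := by
    intro hf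
    obtain ⟨k, hk⟩ := hf.bddAbove
    apply hΞ
    refine (hfin δ k).subset ?_
    intro ξ hξ
    exact ⟨hδ ξ hξ, hk (mem_image_of_mem _ hξ)⟩
  refine ((iic_countable δ).union (hT _ hR)).mono ?_
  intro α hα
  rcases le_or_gt α δ with h1 | h1
  · exact Or.inl h1
  · right
    have hD := (hcoh δ α h1).image (e δ)
    rintro ⟨h2, h3⟩
    by_cases hcc : c
    · apply h3
      refine hD.subset ?_
      rintro n ⟨⟨ξ, hξ, rfl⟩, hn⟩
      refine mem_image_of_mem _ ⟨hδ ξ hξ, ?_⟩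
      intro heq
      apply hn
      rw [heq]
      exact ((hα ξ hξ).2 hcc).2
    · apply h2
      refine hD.subset ?_
      rintro n ⟨⟨ξ, hξ, rfl⟩, hn⟩
      refine mem_image_of_mem _ ⟨hδ ξ hξ, ?_⟩
      intro heq
      rw [heq] at hn
      exact hcc ((hα ξ hξ).1 ⟨(hδ ξ hξ).trans h1, hn⟩)

theorem t_MIX : S_MIX := by
  intro e S hfin hcoh hT Ξ hΞ h
  obtain ⟨c, Ξ', hsub, hinf, hc⟩ : ∃ (c : Prop) (Ξ' : Set Om), Ξ' ⊆ Ξ ∧ Ξ'.Infinite ∧
      ∀ ξ ∈ Ξ', (h ξ ↔ c) := by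
    by_cases h1 : {ξ ∈ Ξ | h ξ}.Infinite
    · exact ⟨True, _, fun x hx => hx.1, h1, fun ξ hξ => iff_true_intro hξ.2⟩
    · refine ⟨False, {ξ ∈ Ξ | ¬ h ξ}, fun x hx => hx.1, ?_, fun ξ hξ => iff_false_intro hξ.2⟩
      intro h2
      apply hΞ
      refine ((not_infinite.1 h1).union h2).subset ?_
      intro x hx
      by_cases h3 : h x
      · exact Or.inl ⟨hx, h3⟩
      · exact Or.inr ⟨hx, h3⟩
  obtain ⟨Ξ'', hsub2, hinf2, hcount⟩ : ∃ Ξ'' : Set Om, Ξ'' ⊆ Ξ' ∧ Ξ''.Infinite ∧ Ξ''.Countable := by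
    let f := hinf.natEmbedding
    refine ⟨range fun n => ((f n : Ξ') : Om), ?_, ?_, countable_range _⟩
    · rintro _ ⟨n, rfl⟩
      exact (f n).2
    · exact infinite_range_of_injective (Subtype.val_injective.comp f.injective)
  refine (const_case hfin hcoh hT hinf2 hcount c).mono ?_
  intro α hα ξ hξ
  exact (hα ξ (hsub (hsub2 hξ))).trans (hc ξ (hsub2 hξ))

end Pool.Agent.N507.LZMIX
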