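import Pool.Agent.N795.SO.Stm

/-!
# The Burgers equation with a small error: maximum principle

Project SO (helper795), part BURG (helper507).
-/

set_option autoImplicit false
set_option linter.all false

namespace Pool.Agent.N795.SO

namespace N507Burg

open Filter Topology Set

/-- maximum principle on a rectangle -/
theorem mp {T h₀ H κ S c : ℝ} (hT : 0 ≤ T) (hH : h₀ ≤ H) {Φ Φt Φh v : ℝ → ℝ → ℝ}
    (hcont : ContinuousOn (fun p : ℝ × ℝ => Φ p.1 p.2) (Icc 0 T ×ˢ Icc h₀ H))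
    (hv : ∀ t h, 0 ≤ t → t ≤ T → h₀ ≤ h → h ≤ H → 0 ≤ v t h)
    (h0 : ∀ h, h₀ ≤ h → h ≤ H → Φ 0 h ≤ c) (hc : ∀ t, 0 ≤ t → t ≤ T → Φ t H ≤ c)
    (hdt : ∀ t h, 0 ≤ t → t ≤ T → h₀ ≤ h → h ≤ H → HasDerivAt (fun s => Φ s h) (Φt t h) t)
    (hdh : ∀ t h, 0 ≤ t → t ≤ T → h₀ ≤ h → h ≤ H → HasDerivAt (fun x => Φ t x) (Φh t h) h)
    (hle : ∀ t h, 0 ≤ t → t ≤ T → h₀ ≤ h → h ≤ H → Φt t h - v t h * Φh t h ≤ κ)
    (hκ : 0 ≤ κ) :
    ∀ t h, 0 ≤ t → t ≤ T → h₀ ≤ h → h ≤ H → Φ t h ≤ c + κ * T := by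
  -- for every `κ' > κ`
  have key : ∀ κ', κ < κ' → ∀ t h, 0 ≤ t → t ≤ T → h₀ ≤ h → h ≤ H → Φ t h ≤ c + κ' * t := by
    intro κ' hκ'
    have hcpt : IsCompact (Icc 0 T ×ˢ Icc h₀ H : Set (ℝ × ℝ)) := isCompact_Icc.prod isCompact_Icc
    have hne : (Icc 0 T ×ˢ Icc h₀ H : Set (ℝ × ℝ)).Nonempty :=
      ⟨(0, h₀), ⟨⟨le_rfl, hT⟩, ⟨le_rfl, hH⟩⟩⟩
    have hcont' : ContinuousOn (fun p : ℝ × ℝ => Φ p.1 p.2 - κ' * p.1)
        (Icc 0 T ×ˢ Icc h₀ H) := hcont.sub (by fun_prop)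
    obtain ⟨⟨ts, hs⟩, ⟨⟨ht0, htT⟩, ⟨hh0, hhH⟩⟩, hmax⟩ := hcpt.exists_isMaxOn hne hcont'
    simp only at ht0 htT hh0 hhH
    have hmax' : ∀ t h, 0 ≤ t → t ≤ T → h₀ ≤ h → h ≤ H →
        Φ t h - κ' * t ≤ Φ ts hs - κ' * ts := by
      intro t h h1 h2 h3 h4
      exact hmax (show (t, h) ∈ (Icc 0 T ×ˢ Icc h₀ H : Set (ℝ × ℝ)) from ⟨⟨h1, h2⟩, ⟨h3, h4⟩⟩)
    suffices hmc : Φ ts hs - κ' * ts ≤ c by
      intro t h h1 h2 h3 h4
      have := hmax' t h h1 h2 h3 h4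
      linarith
    by_contra hcon
    push Not at hcon
    have hts : 0 < ts := by
      rcases ht0.eq_or_lt with h1 | h1
      · exfalso
        rw [← h1] at hcon
        have := h0 hs hh0 hhH
        linarith
      · exact h1
    have hhs : hs < H := by
      rcases hhH.eq_or_lt with h1 | h1
      · exfalso
        rw [h1] at hcon
        have := hc ts ht0 htT
        have h2 : 0 ≤ κ' * ts := mul_nonneg (hκ.trans hκ'.le) ht0
        linarith
      · exact h1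
    -- derivative in `t`
    have d1 : 0 ≤ Φt ts hs - κ' := by
      have hd : HasDerivAt (fun s => Φ s hs - κ' * s) (Φt ts hs - κ' * 1) ts :=
        (hdt ts hs ht0 htT hh0 hhH).sub ((hasDerivAt_id ts).const_mul κ')
      rw [mul_one] at hd
      have hw : HasDerivWithinAt (fun s => Φ s hs - κ' * s) (Φt ts hs - κ') (Iio ts) ts :=
        hd.hasDerivWithinAt
      rw [hasDerivWithinAt_iff_tendsto_slope' (by simp)] at hw
      refine ge_of_tendsto hw ?_
      have : Ioo 0 ts ∈ 𝓝[<] ts := Ioo_mem_nhdsLT hts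
      filter_upwards [this] with s hs'
      rw [slope_def_field]
      have h1 := hmax' s hs hs'.1.le (hs'.2.le.trans htT) hh0 hhH
      exact div_nonneg_of_nonpos (by linarith) (by linarith [hs'.2])
    have d2 : Φh ts hs ≤ 0 := by
      have hd : HasDerivAt (fun x => Φ ts x) (Φh ts hs) hs := hdh ts hs ht0 htT hh0 hhH
      have hw : HasDerivWithinAt (fun x => Φ ts x) (Φh ts hs) (Ioi hs) hs := hd.hasDerivWithinAt
      rw [hasDerivWithinAt_iff_tendsto_slope' (by simp)] at hw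
      refine le_of_tendsto hw ?_
      have : Ioo hs H ∈ 𝓝[>] hs := Ioo_mem_nhdsGT hhs
      filter_upwards [this] with x hx
      rw [slope_def_field]
      have h1 := hmax' ts x ht0 htT (hh0.trans hx.1.le) hx.2.le
      exact div_nonpos_of_nonpos_of_nonneg (by linarith) (by linarith [hx.1])
    have d3 := hle ts hs ht0 htT hh0 hhH
    have d4 : v ts hs * Φh ts hs ≤ 0 :=
      mul_nonpos_of_nonneg_of_nonpos (hv ts hs ht0 htT hh0 hhH) d2
    linarith
  intro t h h1 h2 h3 h4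
  have h5 : Φ t h ≤ c + κ * t := by
    refine le_of_forall_pos_le_add fun ε hε => ?_
    have h6 := key (κ + ε / (t + 1)) (by
      have : 0 < ε / (t + 1) := by positivity
      linarith) t h h1 h2 h3 h4
    have h7 : ε / (t + 1) * t ≤ ε := by
      rw [div_mul_eq_mul_div, div_le_iff₀ (by positivity)]
      nlinarith
    nlinarith
  have h6 : κ * t ≤ κ * T := mul_le_mul_of_nonneg_left h2 hκ
  linarith

theorem burg_main : ∀ (T S η h₀ : ℝ) (F Ft Fh : ℝ → ℝ → ℝ), 0 ≤ T → 0 ≤ S → 0 ≤ η → 0 < h₀ →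
  (∀ t h, 0 ≤ t → t ≤ T → h₀ ≤ h → 1 - Real.exp (-h) ≤ F t h ∧ F t h ≤ 1) →
  (∀ h, h₀ ≤ h → F 0 h = 1 - Real.exp (-h)) →
  (∀ t h, 0 ≤ t → t ≤ T → h₀ ≤ h → HasDerivAt (fun s => F s h) (Ft t h) t) →
  (∀ t h, 0 ≤ t → t ≤ T → h₀ ≤ h → HasDerivAt (fun x => F t x) (Fh t h) h) →
  Continuous (fun p : ℝ × ℝ => F p.1 p.2) →
  (∀ t h, 0 ≤ t → t ≤ T → h₀ ≤ h → |Ft t h - S * F t h * Fh t h| ≤ η) →
  ∀ t h, 0 ≤ t → t ≤ T → h₀ ≤ h →
    |F t h - (1 - Real.exp (-(h + S * t * F t h)))| ≤ (1 + S * T) * T * η := by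
  intro T S η h₀ F Ft Fh hT hS hη hh₀ hF h0 hdt hdh hcont hle t h ht htT hh
  obtain ⟨Φ, hΦ⟩ : ∃ Φ : ℝ → ℝ → ℝ, ∀ t h, Φ t h = F t h - 1 + Real.exp (-(h + S * t * F t h)) :=
    ⟨_, fun _ _ => rfl⟩
  obtain ⟨Φt, hΦt⟩ : ∃ Φt : ℝ → ℝ → ℝ, ∀ t h, Φt t h = Ft t h -
      Real.exp (-(h + S * t * F t h)) * (S * F t h + S * t * Ft t h) := ⟨_, fun _ _ => rfl⟩
  obtain ⟨Φh, hΦh⟩ : ∃ Φh : ℝ → ℝ → ℝ, ∀ t h, Φh t h = Fh t h -
      Real.exp (-(h + S * t * F t h)) * (1 + S * t * Fh t h) := ⟨_, fun _ _ => rfl⟩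
  have dt : ∀ t h, 0 ≤ t → t ≤ T → h₀ ≤ h → HasDerivAt (fun s => Φ s h) (Φt t h) t := by
    intro t h h1 h2 h3
    have e1 := hdt t h h1 h2 h3
    have e2 : HasDerivAt (fun s => -(h + S * s * F s h)) (-(S * F t h + S * t * Ft t h)) t := by
      have e3 : HasDerivAt (fun s : ℝ => S * s) (S * 1) t := (hasDerivAt_id t).const_mul S
      have e4 := (e3.mul e1).const_add h
      have e5 := e4.neg
      refine e5.congr_deriv ?_
      ring
    have e6 := (e1.sub_const 1).add e2.exp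
    have e7 : (fun s => Φ s h) = fun s => F s h - 1 + Real.exp (-(h + S * s * F s h)) := by
      funext s
      exact hΦ s h
    rw [e7]
    refine e6.congr_deriv ?_
    rw [hΦt]
    ring
  have dh : ∀ t h, 0 ≤ t → t ≤ T → h₀ ≤ h → HasDerivAt (fun x => Φ t x) (Φh t h) h := by
    intro t h h1 h2 h3
    have e1 := hdh t h h1 h2 h3
    have e2 : HasDerivAt (fun x => -(x + S * t * F t x)) (-(1 + S * t * Fh t h)) h := by
      have e4 := ((hasDerivAt_id h).add (e1.const_mul (S * t))).neg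
      exact e4
    have e6 := (e1.sub_const 1).add e2.exp
    have e7 : (fun x => Φ t x) = fun x => F t x - 1 + Real.exp (-(x + S * t * F t x)) := by
      funext s
      exact hΦ t s
    rw [e7]
    refine e6.congr_deriv ?_
    rw [hΦh]
    ring
  have hF0 : ∀ t h, 0 ≤ t → t ≤ T → h₀ ≤ h → 0 ≤ F t h := by
    intro t h h1 h2 h3
    have h4 := (hF t h h1 h2 h3).1
    have h5 : Real.exp (-h) ≤ 1 := Real.exp_le_one_iff.2 (by linarith)
    linarith
  have hq : ∀ t h, 0 ≤ t → t ≤ T → h₀ ≤ h → 0 < Real.exp (-(h + S * t * F t h)) ∧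
      Real.exp (-(h + S * t * F t h)) ≤ Real.exp (-h) := by
    intro t h h1 h2 h3
    refine ⟨Real.exp_pos _, Real.exp_le_exp.2 ?_⟩
    have := mul_nonneg (mul_nonneg hS h1) (hF0 t h h1 h2 h3)
    linarith
  have hPDE : ∀ t h, 0 ≤ t → t ≤ T → h₀ ≤ h →
      |Φt t h - S * F t h * Φh t h| ≤ (1 + S * T) * η := by
    intro t h h1 h2 h3
    have e1 : Φt t h - S * F t h * Φh t h =
        (1 - Real.exp (-(h + S * t * F t h)) * (S * t)) * (Ft t h - S * F t h * Fh t h) := by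
      rw [hΦt, hΦh]
      ring
    rw [e1, abs_mul]
    have h4 := hq t h h1 h2 h3
    have h5 : Real.exp (-h) ≤ 1 := Real.exp_le_one_iff.2 (by linarith)
    have h6 : 0 ≤ S * t := mul_nonneg hS h1
    have h7 : S * t ≤ S * T := mul_le_mul_of_nonneg_left h2 hS
    have h8 : 0 ≤ Real.exp (-(h + S * t * F t h)) * (S * t) := mul_nonneg h4.1.le h6
    have h9 : Real.exp (-(h + S * t * F t h)) * (S * t) ≤ S * T := by
      calc Real.exp (-(h + S * t * F t h)) * (S * t) ≤ 1 * (S * t) :=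
            mul_le_mul_of_nonneg_right (h4.2.trans h5) h6
        _ ≤ S * T := by rw [one_mul]; exact h7
    refine mul_le_mul ?_ (hle t h h1 h2 h3) (abs_nonneg _) (by positivity)
    rw [abs_le]
    constructor <;> linarith
  have hPhi0 : ∀ h, h₀ ≤ h → Φ 0 h = 0 := by
    intro h h3
    rw [hΦ, h0 h h3]
    simp
  have hPhiH : ∀ t H, 0 ≤ t → t ≤ T → h₀ ≤ H → |Φ t H| ≤ Real.exp (-H) := by
    intro t H h1 h2 h3
    rw [hΦ, abs_le]
    have h4 := hq t H h1 h2 h3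
    have h5 := hF t H h1 h2 h3
    constructor <;> linarith [h4.1, h4.2, h5.1, h5.2]
  have hκ : 0 ≤ (1 + S * T) * η := by positivity
  have hcΦ : Continuous (fun p : ℝ × ℝ => Φ p.1 p.2) := by
    have e7 : (fun p : ℝ × ℝ => Φ p.1 p.2) =
        fun p => F p.1 p.2 - 1 + Real.exp (-(p.2 + S * p.1 * F p.1 p.2)) := by
      funext p
      exact hΦ p.1 p.2
    rw [e7]
    exact (hcont.sub continuous_const).add (Real.continuous_exp.comp
      ((continuous_snd.add ((continuous_const.mul continuous_fst).mul hcont)).neg))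
  have up : ∀ H, h ≤ H → Φ t h ≤ Real.exp (-H) + (1 + S * T) * η * T := by
    intro H hH
    refine mp (S := S) (Φt := Φt) (Φh := Φh) (v := fun t h => S * F t h) hT (hh.trans hH)
      hcΦ.continuousOn (fun t h h1 h2 h3 _ => mul_nonneg hS (hF0 t h h1 h2 h3))
      (fun h h1 _ => by rw [hPhi0 h h1]; exact (Real.exp_pos _).le)
      (fun t h1 h2 => (le_abs_self _).trans (hPhiH t H h1 h2 (hh.trans hH)))
      (fun t h h1 h2 h3 _ => dt t h h1 h2 h3) (fun t h h1 h2 h3 _ => dh t h h1 h2 h3)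
      (fun t h h1 h2 h3 _ => (le_abs_self _).trans (hPDE t h h1 h2 h3)) hκ t h ht htT hh hH
  have dn : ∀ H, h ≤ H → -Φ t h ≤ Real.exp (-H) + (1 + S * T) * η * T := by
    intro H hH
    refine mp (S := S) (Φ := fun t h => -Φ t h) (Φt := fun t h => -Φt t h)
      (Φh := fun t h => -Φh t h) (v := fun t h => S * F t h) hT (hh.trans hH)
      hcΦ.neg.continuousOn (fun t h h1 h2 h3 _ => mul_nonneg hS (hF0 t h h1 h2 h3))
      (fun h h1 _ => by
        show -Φ 0 h ≤ _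
        rw [hPhi0 h h1, neg_zero]
        exact (Real.exp_pos _).le)
      (fun t h1 h2 => (neg_le_abs _).trans (hPhiH t H h1 h2 (hh.trans hH)))
      (fun t h h1 h2 h3 _ => (dt t h h1 h2 h3).neg) (fun t h h1 h2 h3 _ => (dh t h h1 h2 h3).neg)
      (fun t h h1 h2 h3 _ => by
        have e := (neg_le_abs _).trans (hPDE t h h1 h2 h3)
        have e2 : -Φt t h - S * F t h * -Φh t h = -(Φt t h - S * F t h * Φh t h) := by ring
        show -Φt t h - S * F t h * -Φh t h ≤ _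
        rw [e2]
        exact e) hκ t h ht htT hh hH
  have hlim : Tendsto (fun H : ℝ => Real.exp (-H) + (1 + S * T) * η * T) atTop
      (𝓝 (0 + (1 + S * T) * η * T)) :=
    (Real.tendsto_exp_neg_atTop_nhds_zero).add_const _
  have h1 : Φ t h ≤ 0 + (1 + S * T) * η * T :=
    ge_of_tendsto hlim (eventually_atTop.2 ⟨h, fun H hH => up H hH⟩)
  have h2 : -Φ t h ≤ 0 + (1 + S * T) * η * T :=
    ge_of_tendsto hlim (eventually_atTop.2 ⟨h, fun H hH => dn H hH⟩)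
  have e : F t h - (1 - Real.exp (-(h + S * t * F t h))) = Φ t h := by
    rw [hΦ]
    ring
  rw [e, abs_le]
  constructor <;> nlinarith

end N507Burg

theorem burg : Burg := N507Burg.burg_main

end Pool.Agent.N795.SO
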