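import Pool.Agent.N709.UM.Stm

/-!
# Project UM: selection of an element from an asymptotically central ultrafilter
-/

set_option autoImplicit false

open Filter Topology

universe u

namespace Pool.Agent.N507.UMSEL

open Pool.Agent.N709.UM

theorem pow_tendsto {G : Type u} [Group G] [TopologicalSpace G] [IsTopologicalGroup G]
    [LocallyCompactSpace G] {F : Ultrafilter G} (hF : AC F) (a : G) (M : ℕ) :
    Tendsto (fun b : G => (a * b⁻¹) ^ M * b ^ M) (F : Filter G) (𝓝 (a ^ M)) := by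
  induction M with
  | zero => simpa using tendsto_const_nhds
  | succ M ih =>
    have h1 : Tendsto (fun b : G => b⁻¹ * ((a * b⁻¹) ^ M * b ^ M) * b *
        ((a * b⁻¹) ^ M * b ^ M)⁻¹) (F : Filter G) (𝓝 1) := by
      intro U hU
      obtain ⟨C, hC, hC2⟩ := exists_compact_mem_nhds (a ^ M)
      have h2 := hF C hC U hU
      have h3 := ih hC2
      rw [mem_map]
      filter_upwards [h2, h3] with b hb hb2
      exact (hb _ hb2).2
    have h4 := (tendsto_const_nhds (x := a)).mul (h1.mul ih)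
    rw [one_mul] at h4
    rw [pow_succ' a M]
    refine h4.congr fun b => ?_
    rw [pow_succ' (a * b⁻¹) M, pow_succ b M]
    group

theorem sel : Pool.Agent.N709.UM.Sel.{u} := by
  intro G _ _ _ _ _ ρ hρ hc F hF hn D hD t ht k
  classical
  have hcpl : ∀ C : Set G, IsCompact C → ∀ᶠ b in (F : Filter G), b ∉ C := by
    intro C hC
    have h1 : C ∉ F := by
      intro h
      obtain ⟨x, -, hx⟩ := hC.ultrafilter_le_nhds F (le_principal_iff.2 h)
      exact hn ⟨x, hx⟩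
    exact Ultrafilter.compl_mem_iff_notMem.2 h1
  have hU : ∀ f : G → G, Continuous f → f 1 = 1 → ∀ s : ℝ, 0 < s →
      {g : G | ρ (f g) < s} ∈ 𝓝 (1 : G) := by
    intro f hf hf1 s hs
    have h1 : Tendsto (fun g => ρ (f g)) (𝓝 1) (𝓝 (ρ (f 1))) := (hc.comp hf).tendsto 1
    rw [hf1, hρ.one] at h1
    exact h1.eventually (gt_mem_nhds hs)
  -- the choice of `a`
  have hA0 : ∀ᶠ a in (F : Filter G), ∀ c ∈ D, ρ (a * c * a⁻¹ * c⁻¹) < t / 2 ∧
      ρ (a⁻¹ * c * a * c⁻¹) < t / 2 :=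
    hF D hD _ (hU (fun g => g) continuous_id rfl (t / 2) (by linarith))
  have hA1 : ∀ M : ℕ, ∀ᶠ a in (F : Filter G), ∀ z : G,
      Tendsto (fun b : G => b ^ M) (F : Filter G) (𝓝 z) → ρ (a ^ M * z⁻¹) < t := by
    intro M
    by_cases h : ∃ z : G, Tendsto (fun b : G => b ^ M) (F : Filter G) (𝓝 z)
    · obtain ⟨z, hz⟩ := h
      have h1 : Tendsto (fun b : G => ρ (b ^ M * z⁻¹)) (F : Filter G) (𝓝 (ρ (z * z⁻¹))) :=
        (hc.tendsto _).comp (hz.mul tendsto_const_nhds)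
      rw [mul_inv_cancel, hρ.one] at h1
      filter_upwards [h1.eventually (gt_mem_nhds ht)] with a ha w hw
      rw [tendsto_nhds_unique hw hz]
      exact ha
    · exact Eventually.of_forall fun a z hz => absurd ⟨z, hz⟩ h
  have hA2 : ∀ᶠ a in (F : Filter G), ∀ M ∈ Finset.range (k + 1), ∀ z : G,
      Tendsto (fun b : G => b ^ M) (F : Filter G) (𝓝 z) → ρ (a ^ M * z⁻¹) < t :=
    (eventually_all_finset _).2 fun M _ => hA1 M
  obtain ⟨a, ha0, ha2⟩ := (hA0.and hA2).exists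
  -- the choice of `b`
  have hB1 : ∀ᶠ b in (F : Filter G), a * b⁻¹ ∉ D := by
    have h1 : IsCompact ((fun d : G => d⁻¹ * a) '' D) := hD.image (by fun_prop)
    filter_upwards [hcpl _ h1] with b hb hbD
    exact hb ⟨a * b⁻¹, hbD, by group⟩
  have hB2 : ∀ᶠ b in (F : Filter G), ∀ c ∈ D, ρ (a * (b⁻¹ * c * b * c⁻¹) * a⁻¹) < t / 2 := by
    filter_upwards [hF D hD _ (hU (fun g => a * g * a⁻¹) (by fun_prop) (by group) (t / 2)
      (by linarith))] with b hb c hcD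
    exact (hb c hcD).2
  have hB3 : ∀ᶠ b in (F : Filter G), ∀ c ∈ (fun c : G => a⁻¹ * c * a * c⁻¹) '' D ∪ D,
      ρ (b * c * b⁻¹ * c⁻¹) < t / 4 := by
    have h1 : IsCompact ((fun c : G => a⁻¹ * c * a * c⁻¹) '' D ∪ D) :=
      (hD.image (by fun_prop)).union hD
    filter_upwards [hF _ h1 _ (hU (fun g => g) continuous_id rfl (t / 4) (by linarith))]
      with b hb c hcD
    exact (hb c hcD).1
  have hB4 : ∀ M ∈ Finset.range (k + 1), ∀ᶠ b in (F : Filter G),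
      ((a * b⁻¹) ^ M ∉ D ∧ ((a * b⁻¹) ^ M)⁻¹ ∉ D) ∨ ρ ((a * b⁻¹) ^ M) < t := by
    intro M hM
    have hx := pow_tendsto hF a M
    by_cases h : ∃ z : G, Tendsto (fun b : G => b ^ M) (F : Filter G) (𝓝 z)
    · obtain ⟨z, hz⟩ := h
      have h1 : Tendsto (fun b : G => ρ ((a * b⁻¹) ^ M * b ^ M * (b ^ M)⁻¹)) (F : Filter G)
          (𝓝 (ρ (a ^ M * z⁻¹))) := (hc.tendsto _).comp (hx.mul hz.inv)
      filter_upwards [h1.eventually (gt_mem_nhds (ha2 M hM z hz))] with b hb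
      right
      rw [mul_inv_cancel_right] at hb
      exact hb
    · obtain ⟨C, hC, hC2⟩ := exists_compact_mem_nhds (a ^ M)
      have hleave : ∀ K : Set G, IsCompact K → ∀ᶠ b in (F : Filter G), b ^ M ∉ K := by
        intro K hK
        have h1 : K ∉ F.map (fun b : G => b ^ M) := by
          intro h2
          obtain ⟨x, -, hx⟩ := hK.ultrafilter_le_nhds (F.map (fun b : G => b ^ M))
            (le_principal_iff.2 h2)
          exact h ⟨x, hx⟩
        exact Ultrafilter.compl_mem_iff_notMem.2 h1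
      have k1 : IsCompact ((fun p : G × G => p.1⁻¹ * p.2) '' (D ×ˢ C)) :=
        (hD.prod hC).image (by fun_prop)
      have k2 : IsCompact ((fun p : G × G => p.1 * p.2) '' (D ×ˢ C)) :=
        (hD.prod hC).image (by fun_prop)
      filter_upwards [hleave _ k1, hleave _ k2, hx hC2] with b h1 h2 h3
      left
      refine ⟨fun h4 => h1 ⟨((a * b⁻¹) ^ M, (a * b⁻¹) ^ M * b ^ M), ⟨h4, h3⟩, ?_⟩,
        fun h4 => h2 ⟨(((a * b⁻¹) ^ M)⁻¹, (a * b⁻¹) ^ M * b ^ M), ⟨h4, h3⟩, ?_⟩⟩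
      · exact inv_mul_cancel_left _ _
      · exact inv_mul_cancel_left _ _
  have hB5 := (eventually_all_finset (Finset.range (k + 1))).2 hB4
  obtain ⟨b, ⟨hb1, hb2⟩, hb3, hb5⟩ := ((hB1.and hB2).and (hB3.and hB5)).exists
  refine ⟨a * b⁻¹, hb1, fun c hcD => ⟨?_, ?_⟩, fun M _ hM2 =>
    hb5 M (Finset.mem_range.2 (by omega))⟩
  · have e : a * b⁻¹ * c * (a * b⁻¹)⁻¹ * c⁻¹ =
        a * (b⁻¹ * c * b * c⁻¹) * a⁻¹ * (a * c * a⁻¹ * c⁻¹) := by group
    rw [e]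
    have := hρ.mul (a * (b⁻¹ * c * b * c⁻¹) * a⁻¹) (a * c * a⁻¹ * c⁻¹)
    have h1 := hb2 c hcD
    have h2 := (ha0 c hcD).1
    linarith
  · have e : (a * b⁻¹)⁻¹ * c * (a * b⁻¹) * c⁻¹ =
        b * (a⁻¹ * c * a * c⁻¹) * b⁻¹ * (a⁻¹ * c * a * c⁻¹)⁻¹ * ((a⁻¹ * c * a * c⁻¹) *
          (b * c * b⁻¹ * c⁻¹)) := by group
    rw [e]
    have h0 := hρ.mul (b * (a⁻¹ * c * a * c⁻¹) * b⁻¹ * (a⁻¹ * c * a * c⁻¹)⁻¹)
      ((a⁻¹ * c * a * c⁻¹) * (b * c * b⁻¹ * c⁻¹))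
    have h0' := hρ.mul (a⁻¹ * c * a * c⁻¹) (b * c * b⁻¹ * c⁻¹)
    have h1 := hb3 (a⁻¹ * c * a * c⁻¹) (Or.inl ⟨c, hcD, rfl⟩)
    have h2 := hb3 c (Or.inr hcD)
    have h3 := (ha0 c hcD).2
    linarith

end Pool.Agent.N507.UMSEL
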