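import Pool.Agent.N657.ZS.Stm
import Pool.Agent.TH964.CF.Basic

/-!
# Project ZS, part TOR: the lower bound of the Wilson loops on the tori (helper507)

Adaptation of `torus_lower` in `Pool.Agent.TH964.CF.Fin2`.
-/

namespace Pool.Agent.N507.ZSTOR

open MeasureTheory Filter Topology Pool.Agent.TH964.CF Pool.Agent.TH964.CF.BASIC
  Pool.Agent.N623.NA Pool.Agent.N657.ZS

set_option linter.unusedSectionVars false
set_option autoImplicit false

theorem cast_add {n : ℕ} (x y : Fin 4 → ℤ) :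
    (fun i => ((x + y) i : ZMod n)) = (fun i => (x i : ZMod n)) + fun i => (y i : ZMod n) := by
  funext i
  simp

theorem cast_ev {n : ℕ} (l : ℕ) (i : Fin 4) :
    (fun k => ((l • ev ℤ i) k : ZMod n)) = l • ev (ZMod n) i := by
  funext k
  by_cases h : k = i
  · subst h
    simp [ev]
  · simp [ev, h]

variable {G : Type} [Group G]

theorem seg_per {n : ℕ} (U : Lk (ZMod n) → G) (x : Fin 4 → ℤ) (i : Fin 4) (l : ℕ) :
    seg (per U) x i l = seg U (fun k => (x k : ZMod n)) i l := by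
  induction l with
  | zero => rfl
  | succ l ih =>
    rw [seg_succ, seg_succ, ih]
    congr 1
    unfold per
    simp only
    rw [cast_add, cast_ev]

theorem rect_per {n : ℕ} (U : Lk (ZMod n) → G) (x : Fin 4 → ℤ) (i j : Fin 4) (a b : ℕ) :
    rect (per U) x i j a b = rect U (fun k => (x k : ZMod n)) i j a b := by
  unfold rect
  rw [seg_per, seg_per, seg_per, seg_per, cast_add, cast_add, cast_ev, cast_ev]

theorem rect_per_zero {n : ℕ} (U : Lk (ZMod n) → G) (i j : Fin 4) (a b : ℕ) :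
    rect (per U) 0 i j a b = rect U 0 i j a b := by
  rw [rect_per]
  congr 1
  funext k
  simp

/-- The trace of a rectangle is local. -/
theorem loc_trace [TopologicalSpace G] [IsTopologicalGroup G] {ι : Type} [Fintype ι]
    [DecidableEq ι] {A : G →* Matrix.unitaryGroup ι ℂ} (hA : Continuous A) (a b : ℕ) :
    Loc (fun U : Lk ℤ → G => Matrix.trace (mt A (rect U 0 0 1 a b))) := by
  obtain ⟨S, hS, hd⟩ := dep_rect (G := G) 0 0 1 a b
  have h1 : Loc (fun U : Lk ℤ → G => rect U 0 0 1 a b) := ⟨rect_cont _ _ _ _ _, S, hS, hd⟩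
  have h2 : Continuous fun u : G => Matrix.trace (mt A u) := by
    unfold Pool.Agent.N623.NA.mt
    exact Continuous.matrix_trace (continuous_subtype_val.comp hA)
  exact Loc.comp1 h1 h2

theorem main (h1 : S_POT) (h2 : S_CH4) (hEX : Pool.Agent.TH964.CF.S_EX) : S_TOR := by
  intro G _ _ _ _ _ _ _ _ σ _ _ N π hπ hπi q d hq hd ψ A hA hAψ
  obtain ⟨β₀, hβ₀, h3⟩ := h2 G σ N π hπ hπi q d hq hd (1 / 10000) (by norm_num)
  refine ⟨β₀, hβ₀, fun β hβ t => ?_⟩
  obtain ⟨c, hc, k₀, h4⟩ := h1 G σ N π hπ hπi β (hβ₀.trans_le hβ) q d hq hd ψ A hA hAψ t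
  refine ⟨c / 2, by positivity, k₀, fun k hk => ?_⟩
  by_contra hcon
  push Not at hcon
  set S : Set ℕ := {m | Even (m + 1) ∧
    (∫ U, Matrix.trace (mt A (rect U 0 0 1 (2 * t) (2 * k))) ∂gibbs σ π β (2 * m + 2)).re <
      c / 2 * (1 / 8) ^ (2 * k)} with hS
  have hne : (atTop ⊓ 𝓟 S : Filter ℕ).NeBot := by
    rw [← frequently_mem_iff_neBot, frequently_atTop]
    intro a
    obtain ⟨m, hm, he, hm2⟩ := hcon a
    exact ⟨m, hm, he, hm2⟩
  obtain ⟨𝓕, Λ, hne𝓕, h𝓕, hΛ, hlim⟩ := hEX G σ N π hπ β (atTop ⊓ 𝓟 S) hne inf_le_left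
  have hS𝓕 : S ∈ 𝓕 := h𝓕 (mem_inf_of_right (mem_principal_self S))
  have hev : ∀ᶠ m in 𝓕, Even (m + 1) := by
    filter_upwards [hS𝓕] with m hm
    exact hm.1
  have hpei : Pei d Λ (1 / 10000) :=
    h3 β hβ 𝓕 Λ hne𝓕 (h𝓕.trans inf_le_left) hev hlim
  have t1 := (Complex.continuous_re.tendsto _).comp
    (hlim _ (loc_trace hA (2 * t) (2 * k)))
  have t2 : WW Λ A (2 * t) (2 * k) ≤ c / 2 * (1 / 8) ^ (2 * k) := by
    unfold WW
    refine le_of_tendsto t1 ?_
    filter_upwards [hS𝓕] with m hm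
    have e1 : ∀ U : Lk (ZMod (2 * m + 2)) → G,
        Matrix.trace (mt A (rect (per U) 0 0 1 (2 * t) (2 * k))) =
          Matrix.trace (mt A (rect U 0 0 1 (2 * t) (2 * k))) := fun U => by
      rw [rect_per_zero]
    simp only [Function.comp_apply, e1]
    exact le_of_lt hm.2
  have t3 := h4 Λ hΛ hpei k hk
  have : 0 < c * (1 / 8 : ℝ) ^ (2 * k) := by positivity
  linarith

end Pool.Agent.N507.ZSTOR
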